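import Pool.Agent.U687.J8.Match8
import Pool.Agent.U120.MF.Fld
import Pool.Agent.Results.MP_787500_nt.AllWeightsMultiquadraticX49

/-!
# The numbers whose divisors all are good
-/

set_option autoImplicit false
set_option linter.unusedSectionVars false

open scoped Classical

namespace Pool.Agent.U687.J8

open Finset Filter Topology
open Pool.Agent.U687.NO (Ms mem_Ms Iv Ps card_as_sum)
open Pool.Agent.U120.MF (Spl Mt P4 classify spl_iff tt_gd TT)
open Pool.Agent.R426.QB (Ac Ac8 Pc ac_prod)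
open Pool.Agent.Y703.CQ (nr)
open Pool.Agent.Y698.SG (n4)
open Pool.Agent.Results.MP_787500_nt.AllWeightsMultiquadraticX49 (RankZeroShaTwo Adm Good good_iff
  adm_iff)

theorem pc_iff {p : ℕ} (hp : p.Prime) : Pc p ↔ S8 p := by
  unfold Pc S8 Spl
  by_cases h2 : p = 2
  · subst h2
    constructor
    · rintro ⟨-, ⟨h, -⟩ | ⟨h, -⟩⟩ <;> omega
    · rintro (⟨h, -⟩ | ⟨h, -⟩) <;> omega
  by_cases h7 : p = 7
  · subst h7
    constructor
    · rintro ⟨-, ⟨h, -⟩ | ⟨h, -⟩⟩ <;> omega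
    · rintro (⟨h, -⟩ | ⟨h, -⟩) <;> omega
  haveI : Fact p.Prime := ⟨hp⟩
  have h3 : ¬ p % 7 = 0 := by
    intro h
    exact h7 ((Nat.prime_dvd_prime_iff_eq (by norm_num) hp).1 (Nat.dvd_of_mod_eq_zero h)).symm
  rw [Q283.TW.neg7_iff p h2 h7]
  constructor
  · rintro ⟨-, h | h⟩
    · exact Or.inl ⟨h.1, h.2⟩
    · refine Or.inr ⟨h.1, ?_⟩
      omega
  · rintro (h | h)
    · exact ⟨hp, Or.inl ⟨h.1, h.2⟩⟩
    · refine ⟨hp, Or.inr ⟨h.1, ?_⟩⟩
      omega

theorem pc_p4 {p : ℕ} (h : Pc p) : P4 p := by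
  refine ⟨h.1, ?_⟩
  rcases h.or8 with h1 | h1 <;> omega

theorem pc_mk {p : ℕ} (h : Pc p) : Pool.Agent.R413.SQ.mk p = 1 ↔ p % 8 = 1 := by
  rw [← spl_iff (pc_p4 h)]
  rcases (pc_iff h.1).1 h with h1 | h1
  · exact ⟨fun _ => h1.1, fun _ => h1.2⟩
  · constructor
    · intro h2
      exact absurd h2 h1.2
    · intro h2
      omega

theorem gd_eq {U : Finset ℕ} (h : ∀ p ∈ U, Pc p) :
    Pool.Agent.Y703.CQ.Gd n4 U ↔ Pool.Agent.R413.SQ.Gd n4 U := by
  have hcu : ∀ (x : ℕ → ZMod 2), ∀ q ∈ U, Pool.Agent.Y703.CQ.cu x q = Pool.Agent.R413.SQ.cu x q := by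
    intro x q hq
    unfold Pool.Agent.Y703.CQ.cu Pool.Agent.R413.SQ.cu
    by_cases h1 : q % 8 = 1
    · rw [if_pos h1, if_pos ((pc_mk (h q hq)).2 h1)]
    · rw [if_neg h1, if_neg fun h2 => h1 ((pc_mk (h q hq)).1 h2)]
  have hsol : ∀ x : ℕ → ZMod 2, Pool.Agent.Y703.CQ.Sol n4 U x ↔ Pool.Agent.R413.SQ.Sol n4 U x := by
    intro x
    unfold Pool.Agent.Y703.CQ.Sol Pool.Agent.R413.SQ.Sol
    refine forall₂_congr fun p hp => ?_
    rw [pc_mk (h p hp), Finset.sum_congr rfl fun q hq => by rw [hcu x q hq]]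
  unfold Pool.Agent.Y703.CQ.Gd Pool.Agent.R413.SQ.Gd
  refine forall_congr' fun x => ?_
  rw [hsol x]
  refine imp_congr_right fun _ => forall₂_congr fun p hp => ?_
  rw [pc_mk (h p hp)]

theorem rz_tt {U : Finset ℕ} (h : ∀ p ∈ U, Pc p) :
    RankZeroShaTwo (∏ p ∈ U, p) ↔ TT (∏ p ∈ U, p) := by
  rw [good_iff (ac_prod h), tt_gd fun p hp => pc_p4 (h p hp),
    Nat.primeFactors_prod fun p hp => (h p hp).1]
  exact gd_eq h

/-- all the divisors of `m` are good -/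
def AllRZ (m : ℕ) : Prop := ∀ d : ℕ, d ∣ m → RankZeroShaTwo d

theorem all_iff {m : ℕ} (h : Ac m) : AllRZ m ↔ Mt (m.primeFactors : Set ℕ) := by
  have hp : ∀ p ∈ (m.primeFactors : Set ℕ), Pc p := fun p hp => h.2 p (Finset.mem_coe.1 hp)
  have h1 : (∀ U : Finset ℕ, (U : Set ℕ) ⊆ (m.primeFactors : Set ℕ) → TT (∏ p ∈ U, p)) ↔
      Mt (m.primeFactors : Set ℕ) := (classify fun p hpm => pc_p4 (hp p hpm)).1
  rw [← h1]
  constructor
  · intro h2 U hU
    refine (rz_tt fun p hpU => hp p (hU (Finset.mem_coe.2 hpU))).1 (h2 _ ?_)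
    have h3 := Finset.prod_dvd_prod_of_subset U m.primeFactors (fun p => p) (Finset.coe_subset.1 hU)
    rwa [Nat.prod_primeFactors_of_squarefree h.1] at h3
  · intro h2 d hd
    have h3 : (d.primeFactors : Set ℕ) ⊆ (m.primeFactors : Set ℕ) :=
      Finset.coe_subset.2 (Nat.primeFactors_mono hd h.1.ne_zero)
    have h4 : ∏ p ∈ d.primeFactors, p = d :=
      Nat.prod_primeFactors_of_squarefree (h.1.squarefree_of_dvd hd)
    have h5 := (rz_tt fun p hpU => hp p (h3 (Finset.mem_coe.2 hpU))).2 (h2 d.primeFactors h3)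
    rwa [h4] at h5

/-- the goodness of pairs of divisors -/
theorem good_of {m : ℕ} (h : Ac m) (hA : AllRZ m) {M : ℕ} (hM : M ∣ m) (hM8 : M % 8 = 1) {n : ℕ}
    (d : Fin n → ℕ) (hd : ∀ i, d i ∣ m ∧ d i % 8 = 1) : Good M d := by
  intro T
  have hm0 : m ≠ 0 := h.1.ne_zero
  have h8 : (M * ∏ i ∈ T, d i) % 8 = 1 := by
    have h1 : (∏ i ∈ T, d i) % 8 = 1 := by
      induction T using Finset.induction_on with
      | empty => rfl
      | insert i T hi ih =>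
        rw [Finset.prod_insert hi, Nat.mul_mod, (hd i).2, ih]
    rw [Nat.mul_mod, hM8, h1]
  have hN0 : M * ∏ i ∈ T, d i ≠ 0 := by
    intro h0
    rw [h0] at h8
    norm_num at h8
  obtain ⟨a, b, hab, hsq⟩ := Nat.sq_mul_squarefree (M * ∏ i ∈ T, d i)
  have hb0 : b ≠ 0 := by
    rintro rfl
    apply hN0
    rw [← hab]
    ring
  have ha0 : a ≠ 0 := hsq.ne_zero
  have hpr : ∀ p : ℕ, p.Prime → p ∣ a → p ∣ m := by
    intro p hp hpa
    have h1 : p ∣ M * ∏ i ∈ T, d i := by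
      rw [← hab]
      exact hpa.mul_left _
    rcases hp.dvd_mul.1 h1 with h2 | h2
    · exact h2.trans hM
    · obtain ⟨i, -, hi⟩ := (Prime.dvd_finsetProd_iff hp.prime _).1 h2
      exact hi.trans (hd i).1
  have ham : a ∣ m := by
    have h1 : a.primeFactors ⊆ m.primeFactors := fun p hp =>
      Nat.mem_primeFactors.2 ⟨Nat.prime_of_mem_primeFactors hp,
        hpr p (Nat.prime_of_mem_primeFactors hp) (Nat.dvd_of_mem_primeFactors hp), hm0⟩
    have h3 := Finset.prod_dvd_prod_of_subset a.primeFactors m.primeFactors (fun p => p) h1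
    rwa [Nat.prod_primeFactors_of_squarefree h.1, Nat.prod_primeFactors_of_squarefree hsq] at h3
  have ha8 : a % 8 = 1 := by
    have hb : b % 8 = 0 ∨ b % 8 = 1 ∨ b % 8 = 2 ∨ b % 8 = 3 ∨ b % 8 = 4 ∨ b % 8 = 5 ∨ b % 8 = 6 ∨
        b % 8 = 7 := by omega
    have h2 : (b % 8 * (b % 8) * (a % 8)) % 8 = 1 := by
      have e : (b * b * a) % 8 = (b % 8 * (b % 8) * (a % 8)) % 8 := by simp [Nat.mul_mod]
      rw [← e, ← pow_two, hab]
      exact h8
    have ha : a % 8 = 0 ∨ a % 8 = 1 ∨ a % 8 = 2 ∨ a % 8 = 3 ∨ a % 8 = 4 ∨ a % 8 = 5 ∨ a % 8 = 6 ∨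
        a % 8 = 7 := by omega
    rcases hb with hb | hb | hb | hb | hb | hb | hb | hb <;>
    rcases ha with ha | ha | ha | ha | ha | ha | ha | ha <;>
    rw [hb, ha] at h2 <;> first | exact ha | (exfalso; revert h2; decide)
  refine ⟨a, b, hb0, (adm_iff a).2 ⟨⟨hsq, fun p hp => ?_⟩, ha8⟩, hA a ham, ?_⟩
  · exact h.2 p (Nat.mem_primeFactors.2 ⟨Nat.prime_of_mem_primeFactors hp,
      hpr p (Nat.prime_of_mem_primeFactors hp) (Nat.dvd_of_mem_primeFactors hp), hm0⟩)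
  · rw [← hab]
    ring

/-- the `m ≤ X` of the class with exactly `K` prime factors -/
noncomputable def N8 (K X : ℕ) : Finset ℕ :=
  (Finset.Icc 1 X).filter fun m => Ac m ∧ m.primeFactors.card = K

theorem n8_eq (K X : ℕ) : N8 K X = M8 K X := by
  ext m
  have h0 : m ∈ N8 K X ↔ m ∈ Finset.Icc 1 X ∧ Ac m ∧ m.primeFactors.card = K := Finset.mem_filter
  have h1 : m ∈ M8 K X ↔ m ∈ Ms K 1 X ∧ ∀ p ∈ m.primeFactors, S8 p := Finset.mem_filter
  rw [h0, h1, mem_Ms, Finset.mem_Icc]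
  constructor
  · rintro ⟨h2, ⟨h3, h4⟩, h5⟩
    exact ⟨⟨h2, h3, h5, fun p hp => (pc_p4 (h4 p hp)).2, Nat.coprime_one_right m⟩,
      fun p hp => (pc_iff (Nat.prime_of_mem_primeFactors hp)).1 (h4 p hp)⟩
  · rintro ⟨⟨h2, h3, h5, -, -⟩, h6⟩
    exact ⟨h2, ⟨h3, fun p hp => (pc_iff (Nat.prime_of_mem_primeFactors hp)).2 (h6 p hp)⟩, h5⟩

/-- the share of those with `Q` -/
noncomputable def P8 (K : ℕ) (Q : ℕ → Prop) (X : ℕ) : ℝ :=
  (((N8 K X).filter Q).card : ℝ) / ((N8 K X).card : ℝ)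

theorem card_filter_sum (s : Finset ℕ) (Q : ℕ → Prop) {d : DecidablePred Q} :
    ((s.filter Q).card : ℝ) = ∑ m ∈ s, if Q m then (1 : ℝ) else 0 := by
  rw [card_as_sum, Finset.sum_filter]

/-- **the law in the class** -/
theorem law8 (n s : ℕ) :
    (∀ᶠ X : ℕ in atTop, (N8 (n + 1) X).Nonempty) ∧
    Tendsto (P8 (n + 1) fun m => (m.primeFactors.filter Spl).card = s ∧ AllRZ m) atTop
      (𝓝 (Ps (n + 1) s)) := by
  obtain ⟨h1, h2⟩ := match8 n s
  refine ⟨?_, ?_⟩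
  · filter_upwards [h1] with X hX
    rw [n8_eq]
    exact Finset.card_pos.1 hX
  · refine h2.congr fun X => ?_
    unfold P8
    rw [← n8_eq, card_filter_sum]
    congr 1
    refine Finset.sum_congr rfl fun m hm => ite_iff ?_
    have hc : Ac m := (Finset.mem_filter.1 hm).2.1
    rw [all_iff hc]
    exact ⟨fun h => ⟨h.2, h.1⟩, fun h => ⟨h.2, h.1⟩⟩

theorem total8 (n : ℕ) :
    Tendsto (P8 (n + 1) AllRZ) atTop (𝓝 (∑ s ∈ Finset.range (n + 1 + 1), Ps (n + 1) s)) := by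
  have h := tendsto_finsetSum (Finset.range (n + 1 + 1))
    fun s (_ : s ∈ Finset.range (n + 1 + 1)) => (law8 n s).2
  refine h.congr fun X => ?_
  unfold P8
  rw [← Finset.sum_div]
  congr 1
  have h1 : ∀ m ∈ (N8 (n + 1) X).filter AllRZ, (m.primeFactors.filter Spl).card ∈
      Finset.range (n + 1 + 1) := by
    intro m hm
    have h2 := (Finset.mem_filter.1 (Finset.mem_filter.1 hm).1).2.2
    have h3 : (m.primeFactors.filter Spl).card ≤ m.primeFactors.card := Finset.card_filter_le _ _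
    rw [Finset.mem_range]
    omega
  rw [Finset.card_eq_sum_card_fiberwise h1]
  push_cast
  refine Finset.sum_congr rfl fun s _ => ?_
  congr 2
  ext m
  simp only [Finset.mem_filter]
  tauto

/-! ### the numbers -/

theorem iv_small : Iv 0 = 1 ∧ Iv 1 = 1 ∧ Iv 2 = 2 ∧ Iv 3 = 4 := by
  have h : ∀ s c : ℕ, (@Fintype.card {σ : Equiv.Perm (Fin s) // σ * σ = 1}
      (@Subtype.fintype _ _ (fun σ => decEq (σ * σ) 1) _)) = c → Iv s = c := by
    intro s c hc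
    have e : Iv s = Nat.card {σ : Equiv.Perm (Fin s) // σ * σ = 1} := by
      unfold Iv
      rw [Nat.card_eq_fintype_card, Fintype.card_subtype]
    rw [← hc, e]
    exact @Nat.card_eq_fintype_card _ (@Subtype.fintype _ _ (fun σ => decEq (σ * σ) 1) _)
  refine ⟨h 0 1 (by decide), h 1 1 (by decide), h 2 2 (by decide), h 3 4 (by decide)⟩

end Pool.Agent.U687.J8
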