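import Pool.Agent.U687.J8.Hook

/-!
# Independent divisors, and small bad divisors
-/

set_option autoImplicit false
set_option linter.unusedSectionVars false

open scoped Classical

namespace Pool.Agent.U687.J8

open Finset
open Pool.Agent.U120.MF (Spl Mt P4 classify spl_iff tt_gd TT)
open Pool.Agent.R426.QB (Ac Ac8 Pc ac_prod)
open Pool.Agent.Results.MP_787500_nt.AllWeightsMultiquadraticX49 (RankZeroShaTwo Adm Good Ind)

/-- if not all the divisors are good, then a divisor with at most three prime factors is not good -/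
theorem three8 {m : ℕ} (h : Ac m) (hn : ¬ AllRZ m) :
    ∃ d : ℕ, d ∣ m ∧ d.primeFactors.card ≤ 3 ∧ ¬ RankZeroShaTwo d := by
  have hp : ∀ p ∈ (m.primeFactors : Set ℕ), Pc p := fun p hp => h.2 p (Finset.mem_coe.1 hp)
  have h1 : (∀ U : Finset ℕ, (U : Set ℕ) ⊆ (m.primeFactors : Set ℕ) → U.card ≤ 3 →
      TT (∏ p ∈ U, p)) ↔ Mt (m.primeFactors : Set ℕ) :=
    (classify fun p hpm => pc_p4 (hp p hpm)).2
  rw [all_iff h, ← h1] at hn
  push Not at hn
  obtain ⟨U, hU, hc, hT⟩ := hn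
  have hU' : ∀ p ∈ U, Pc p := fun p hpU => hp p (hU (Finset.mem_coe.2 hpU))
  refine ⟨∏ p ∈ U, p, ?_, ?_, fun h2 => hT ((rz_tt hU').1 h2)⟩
  · have h3 := Finset.prod_dvd_prod_of_subset U m.primeFactors (fun p => p) (Finset.coe_subset.1 hU)
    rwa [Nat.prod_primeFactors_of_squarefree h.1] at h3
  · rw [Nat.primeFactors_prod fun p hpU => (hU' p hpU).1]
    exact hc

/-- an odd exponent -/
theorem not_square {n : ℕ} {d : Fin n → ℕ} {m p : ℕ} (hm : Squarefree m) (hd : ∀ i, d i ∣ m)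
    {T : Finset (Fin n)} {j : Fin n} (hj : j ∈ T) (hp : p.Prime) (hpj : p ∣ d j)
    (hne : ∀ i ∈ T, i ≠ j → ¬ p ∣ d i) : ¬ IsSquare (∏ i ∈ T, d i) := by
  have h0 : ∀ i ∈ T, d i ≠ 0 := fun i _ h => hm.ne_zero (Nat.eq_zero_of_zero_dvd (h ▸ hd i))
  rintro ⟨r, hr⟩
  have h1 : (∏ i ∈ T, d i).factorization p = 1 := by
    rw [Nat.factorization_prod h0, Finset.sum_apply', Finset.sum_eq_single j]
    · have h2 := (hm.squarefree_of_dvd (hd j)).natFactorization_le_one p
      have h3 := hp.factorization_pos_of_dvd (h0 j hj) hpj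
      omega
    · intro i hi hij
      exact Nat.factorization_eq_zero_of_not_dvd (hne i hi hij)
    · intro h
      exact absurd hj h
  have hN0 : ∏ i ∈ T, d i ≠ 0 := Finset.prod_ne_zero_iff.2 h0
  have hr0 : r ≠ 0 := by
    rintro rfl
    exact hN0 (by rw [hr])
  rw [hr, Nat.factorization_mul hr0 hr0, Finsupp.add_apply] at h1
  omega

/-- **independent divisors** -/
theorem exists_ind8 {m : ℕ} (h : Ac m) :
    ∃ d : Fin (m.primeFactors.card - 1) → ℕ, (∀ i, d i ∣ m ∧ d i % 8 = 1) ∧ Ind d := by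
  by_cases hK : m.primeFactors.card = 0
  · refine ⟨fun _ => 1, fun i => ⟨one_dvd m, rfl⟩, ?_⟩
    intro T hT
    obtain ⟨i, -⟩ := hT
    have := i.2
    omega
  have hne : m.primeFactors.Nonempty := Finset.card_pos.1 (Nat.pos_of_ne_zero hK)
  obtain ⟨q, hq, hq5⟩ : ∃ q ∈ m.primeFactors, (∃ l ∈ m.primeFactors, l % 8 = 5) → q % 8 = 5 := by
    by_cases hex : ∃ l ∈ m.primeFactors, l % 8 = 5
    · obtain ⟨l, hl, hl5⟩ := hex
      exact ⟨l, hl, fun _ => hl5⟩
    · obtain ⟨l, hl⟩ := hne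
      exact ⟨l, hl, fun h1 => absurd h1 hex⟩
  have hcard : (m.primeFactors.erase q).card = m.primeFactors.card - 1 :=
    Finset.card_erase_of_mem hq
  set e := (Finset.equivFinOfCardEq hcard).symm with he
  have hmem : ∀ i, (e i : ℕ) ∈ m.primeFactors.erase q := fun i => (e i).2
  have hpr : ∀ i, ((e i : ℕ)).Prime := fun i =>
    Nat.prime_of_mem_primeFactors (Finset.mem_of_mem_erase (hmem i))
  have hdv : ∀ i, (e i : ℕ) ∣ m := fun i =>
    Nat.dvd_of_mem_primeFactors (Finset.mem_of_mem_erase (hmem i))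
  have hqp : q.Prime := Nat.prime_of_mem_primeFactors hq
  have hne' : ∀ i, (e i : ℕ) ≠ q := fun i => Finset.ne_of_mem_erase (hmem i)
  set d : Fin (m.primeFactors.card - 1) → ℕ :=
    fun i => if (e i : ℕ) % 8 = 1 then (e i : ℕ) else (e i : ℕ) * q with hd
  have hd1 : ∀ i, d i ∣ m := by
    intro i
    show (if (e i : ℕ) % 8 = 1 then (e i : ℕ) else (e i : ℕ) * q) ∣ m
    split_ifs
    · exact hdv i
    · exact Nat.Coprime.mul_dvd_of_dvd_of_dvd
        ((Nat.coprime_primes (hpr i) hqp).2 (hne' i)) (hdv i) (Nat.dvd_of_mem_primeFactors hq)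
  have hdp : ∀ i, (e i : ℕ) ∣ d i := by
    intro i
    show (e i : ℕ) ∣ if (e i : ℕ) % 8 = 1 then (e i : ℕ) else (e i : ℕ) * q
    split_ifs
    · exact dvd_rfl
    · exact dvd_mul_right _ _
  have hdn : ∀ i j, i ≠ j → ¬ (e j : ℕ) ∣ d i := by
    intro i j hij hd
    have h1 : (e j : ℕ) ≠ e i := fun h2 => hij (e.injective (Subtype.ext h2)).symm
    have h2 : (e j : ℕ) ∣ (e i : ℕ) * q := by
      refine hd.trans ?_
      show (if (e i : ℕ) % 8 = 1 then (e i : ℕ) else (e i : ℕ) * q) ∣ (e i : ℕ) * q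
      split_ifs
      · exact dvd_mul_right _ _
      · exact dvd_rfl
    rcases (hpr j).dvd_mul.1 h2 with h3 | h3
    · exact h1 ((Nat.prime_dvd_prime_iff_eq (hpr j) (hpr i)).1 h3)
    · exact hne' j ((Nat.prime_dvd_prime_iff_eq (hpr j) hqp).1 h3)
  refine ⟨d, fun i => ⟨hd1 i, ?_⟩, ?_⟩
  · show (if (e i : ℕ) % 8 = 1 then (e i : ℕ) else (e i : ℕ) * q) % 8 = 1
    by_cases h1 : (e i : ℕ) % 8 = 1
    · rw [if_pos h1]
      exact h1
    · rw [if_neg h1]
      have h2 : (e i : ℕ) % 8 = 5 :=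
        (h.2 _ (Finset.mem_of_mem_erase (hmem i))).or8.resolve_left h1
      have h3 := hq5 ⟨_, Finset.mem_of_mem_erase (hmem i), h2⟩
      rw [Nat.mul_mod, h2, h3]
  · intro T hT
    obtain ⟨j, hj⟩ := hT
    exact not_square h.1 hd1 hj (hpr j) (hdp j) fun i _ hij => hdn i j hij

end Pool.Agent.U687.J8
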