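import Pool.Agent.U687.J8.Nat8
import Pool.Agent.U687.J8.Hook

/-!
# The law in the class, for every member of the class
-/

set_option autoImplicit false
set_option linter.unusedSectionVars false

open scoped Classical

namespace Pool.Agent.U687.J8

open Finset Filter Topology
open Pool.Agent.U687.Q2 (av cf Ci Cs Ca CC wt PP PP_eq PP_uw En exists_en MM cor uw mu nu TT
  cor_zero_iff det_MM MM_symm lim2)
open Pool.Agent.U687.JT (nr2 n47 bad bad_spec)
open Pool.Agent.U687.NO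
open Pool.Agent.U120.MF (Spl P4)
open Pool.Agent.R426.QB (Ac Ac8 Pc ac_prod)
open Pool.Agent.Y698.SG (n4)
open Pool.Agent.Results.MP_4a9ea6_nt.TwoPartTwistsX49 (Adm mat)
open Pool.Agent.Results.MP_787500_nt.AllWeightsMultiquadraticX49 (RankZeroShaTwo good_iff)
open Pool.Agent.R413.SQ (Cor.det_iff)

theorem pf_allD {K D : ℕ} {x : Fin K → ℕ} (hx : Om K D x) :
    (∀ p ∈ (∏ i, x i).primeFactors, S8 p) ↔ ∀ i, S8 (x i) := by
  rw [(img_pf hx).1]
  constructor
  · intro h i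
    exact h _ (Finset.mem_image_of_mem x (Finset.mem_univ i))
  · intro h p hp
    obtain ⟨i, -, rfl⟩ := Finset.mem_image.1 hp
    exact h i

/-- the class as an indicator -/
noncomputable def i8 (m : ℕ) : ℝ := if ∀ p ∈ m.primeFactors, S8 p then 1 else 0

theorem prod_s8 {K D : ℕ} {x : Fin K → ℕ} (hx : Om K D x) :
    ∏ i, ((1 + s8 (x i)) / 2) = i8 (∏ i, x i) := by
  have h1 : ∀ i ∈ (univ : Finset (Fin K)), (1 + s8 (x i)) / 2 = if S8 (x i) then (1 : ℝ) else 0 :=
    fun i _ => s8_eq (hx.1 i).1 (hx.1 i).2.1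
  rw [Finset.prod_congr rfl h1, Finset.prod_boole]
  unfold i8
  exact ite_iff ⟨fun h => (pf_allD hx).2 fun i => h i (Finset.mem_univ i),
    fun h i _ => (pf_allD hx).1 h i⟩

theorem fac_abs (p : ℕ) : |(1 + s8 p) / 2| ≤ 1 := by
  have h := s8_abs p
  rw [abs_le] at h ⊢
  constructor <;> linarith [h.1, h.2]

/-- **the law with the indicator of the class** -/
theorem raw8 (T : ℕ → ℝ) (u v : ℝ)
    (hT : ∀ (D n : ℕ) (P : Fin n → ℕ), Adm D → En D n P → T D = uw u v (cor (MM D P)))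
    {D n : ℕ} {P : Fin n → ℕ} (hD : Adm D) (hP : En D n P) (k b : ℕ) :
    Tendsto (fun X : ℕ => (∑ m ∈ Ms (k + 1) D X, i8 m * ((if spn m = b then (1 : ℝ) else 0) *
      T (D * m))) / ((Ms (k + 1) D X).card : ℝ)) atTop
      (𝓝 ((1 / 2) ^ (k + 1) * (((k + 1).choose b : ℝ) / 2 ^ (k + 1) *
        (v + (u - v) * qq (k + 1) b (MM D P))))) := by
  have hT' : ∀ D, Adm D → T D = if (mat D).det ≠ 0 then u else v := by
    intro D hD
    obtain ⟨P, hP⟩ := exists_en D
    rw [hT D _ P hD hP]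
    unfold uw
    by_cases h : (mat D).det ≠ 0
    · rw [if_pos h, if_pos]
      rw [cor_zero_iff, ← det_MM hP]
      exact h
    · rw [if_neg h, if_neg]
      rw [cor_zero_iff, ← det_MM hP]
      exact h
  obtain ⟨F, hF⟩ := exists_fun (K := k + 1) hD T u v hT'
  have hW : ∀ r ∈ D.primeFactors, r.Prime ∧ r % 4 = 1 := fun r hr =>
    ⟨Nat.prime_of_mem_primeFactors hr, hD.2 r hr⟩
  set F' : (Pl (k + 1) D.primeFactors → ZMod 2) → ℝ := fun w =>
    (if (univ.filter fun i : Fin (k + 1) => w (Sum.inr (Sum.inr (Sum.inr i))) = 0).card = b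
      then (1 : ℝ) else 0) * F w with hF'
  have hf : ∀ x, Om (k + 1) D x → Jb b x * T (D * ∏ i, x i) = F' (bit D.primeFactors x) := by
    intro x hx
    rw [hF x hx, hF']
    show Jb b x * _ = (if (univ.filter fun i : Fin (k + 1) =>
      bit D.primeFactors x (Sum.inr (Sum.inr (Sum.inr i))) = 0).card = b then (1 : ℝ) else 0) * _
    congr 1
    unfold Jb
    have h1 : (univ.filter fun i : Fin (k + 1) => Sp (x i)) = univ.filter fun i : Fin (k + 1) =>
        bit D.primeFactors x (Sum.inr (Sum.inr (Sum.inr i))) = 0 := by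
      refine Finset.filter_congr fun i _ => ?_
      show Sp (x i) ↔ ty (x i) = 0
      unfold ty Sp
      by_cases h : IsSquare (-7 : ZMod (x i))
      · rw [if_pos h]
        exact ⟨fun _ => rfl, fun _ => h⟩
      · rw [if_neg h]
        exact ⟨fun h2 => absurd h2 h, fun h2 => absurd h2 one_ne_zero⟩
    rw [h1]
  have h1 := il_fun hD.1.ne_zero (fun r hr => ⟨(hW r hr).1, (hW r hr).2,
    Nat.dvd_of_mem_primeFactors hr⟩) F' (fun x => Jb b x * T (D * ∏ i, x i)) hf
  have h3 := h1.unique (il_J T u v hT hD hP k b)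
  have h4 := na_fun8 k hW F'
  rw [h3] at h4
  have hsum : (0 : ℝ) ≤ ∑ w, |F' w| := Finset.sum_nonneg fun w _ => abs_nonneg _
  exact (restr_m k hD.1.ne_zero (fun x => F' (bit D.primeFactors x) * ∏ i, ((1 + s8 (x i)) / 2)) _
    (∑ w, |F' w|) (fun x => by
      rw [abs_mul]
      have h5 : |F' (bit D.primeFactors x)| ≤ ∑ w, |F' w| :=
        Finset.single_le_sum (f := fun w => |F' w|) (fun w _ => abs_nonneg _) (Finset.mem_univ _)
      have h6 : |∏ i, ((1 + s8 (x i)) / 2)| ≤ 1 := by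
        rw [Finset.abs_prod]
        exact Finset.prod_le_one (fun i _ => abs_nonneg _) fun i _ => fac_abs _
      calc |F' (bit D.primeFactors x)| * |∏ i, ((1 + s8 (x i)) / 2)|
          ≤ (∑ w, |F' w|) * 1 := mul_le_mul h5 h6 (abs_nonneg _) hsum
        _ = ∑ w, |F' w| := mul_one _) h4
    (fun m => i8 m * ((if spn m = b then (1 : ℝ) else 0) * T (D * m))) (fun x hx => by
      show i8 (∏ i, x i) * ((if spn (∏ i, x i) = b then (1 : ℝ) else 0) * T (D * ∏ i, x i)) =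
        F' (bit D.primeFactors x) * ∏ i, ((1 + s8 (x i)) / 2)
      rw [← hf x hx, prod_s8 hx, Jb_spn hx]
      ring)).2

/-- the numbers of the class prime to `D` -/
noncomputable def C8 (K D X : ℕ) : Finset ℕ := (Ms K D X).filter fun m => ∀ p ∈ m.primeFactors, S8 p

theorem mem_C8 {K D X m : ℕ} : m ∈ C8 K D X ↔ m ∈ Ms K D X ∧ ∀ p ∈ m.primeFactors, S8 p :=
  Finset.mem_filter

theorem sum_C8 (K D X : ℕ) (R : Finset ℕ) (f : ℕ → ℝ) :
    ∑ m ∈ (C8 K D X).filter (fun m => spn m ∈ R), f m =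
      ∑ b ∈ R, ∑ m ∈ Ms K D X, i8 m * ((if spn m = b then (1 : ℝ) else 0) * f m) := by
  rw [Finset.sum_comm, Finset.sum_filter]
  unfold C8
  rw [Finset.sum_filter]
  refine Finset.sum_congr rfl fun m _ => ?_
  unfold i8
  by_cases h1 : ∀ p ∈ m.primeFactors, S8 p
  · rw [if_pos h1, if_pos h1]
    simp only [one_mul]
    rw [← Finset.sum_mul, Finset.sum_ite_eq]
    by_cases h2 : spn m ∈ R
    · rw [if_pos h2, if_pos h2, one_mul]
    · rw [if_neg h2, if_neg h2, zero_mul]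
  · rw [if_neg h1, if_neg h1]
    simp only [zero_mul, Finset.sum_const_zero]

theorem uw_one (D n : ℕ) (P : Fin n → ℕ) (_ : Adm D) (_ : En D n P) :
    (1 : ℝ) = uw 1 1 (cor (MM D P)) := by
  unfold uw
  split_ifs <;> rfl

/-- **the law in the class, for the numbers whose number of split prime factors is in `R`** -/
theorem law8D (T : ℕ → ℝ) (u v : ℝ)
    (hT : ∀ (D n : ℕ) (P : Fin n → ℕ), Adm D → En D n P → T D = uw u v (cor (MM D P)))
    {D n : ℕ} {P : Fin n → ℕ} (hD : Adm D) (hP : En D n P) (k : ℕ) (R : Finset ℕ)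
    (hR : 0 < ∑ b ∈ R, ((k + 1).choose b : ℝ)) :
    (∀ᶠ X : ℕ in atTop, 0 < ((C8 (k + 1) D X).filter fun m => spn m ∈ R).card) ∧
    Tendsto (fun X : ℕ => (∑ m ∈ (C8 (k + 1) D X).filter (fun m => spn m ∈ R), T (D * m)) /
      (((C8 (k + 1) D X).filter fun m => spn m ∈ R).card : ℝ)) atTop
      (𝓝 ((∑ b ∈ R, ((k + 1).choose b : ℝ) * (v + (u - v) * qq (k + 1) b (MM D P))) /
        ∑ b ∈ R, ((k + 1).choose b : ℝ))) := by
  have h1 : Tendsto (fun X : ℕ => (∑ m ∈ (C8 (k + 1) D X).filter (fun m => spn m ∈ R), T (D * m)) /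
      ((Ms (k + 1) D X).card : ℝ)) atTop (𝓝 (∑ b ∈ R, (1 / 2) ^ (k + 1) *
        (((k + 1).choose b : ℝ) / 2 ^ (k + 1) * (v + (u - v) * qq (k + 1) b (MM D P))))) := by
    refine (tendsto_finsetSum R fun b _ => raw8 T u v hT hD hP k b).congr fun X => ?_
    rw [sum_C8 (k + 1) D X R fun m => T (D * m), Finset.sum_div]
  have h2 : Tendsto (fun X : ℕ => (((C8 (k + 1) D X).filter fun m => spn m ∈ R).card : ℝ) /
      ((Ms (k + 1) D X).card : ℝ)) atTop (𝓝 (∑ b ∈ R, (1 / 2) ^ (k + 1) *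
        (((k + 1).choose b : ℝ) / 2 ^ (k + 1) * (1 + (1 - 1) * qq (k + 1) b (MM D P))))) := by
    refine (tendsto_finsetSum R fun b _ => raw8 (fun _ => 1) 1 1 uw_one hD hP k b).congr fun X => ?_
    rw [card_as_sum ((C8 (k + 1) D X).filter fun m => spn m ∈ R), sum_C8 (k + 1) D X R fun _ => 1,
      Finset.sum_div]
  have hc : (0 : ℝ) < (1 / 2) ^ (k + 1) / 2 ^ (k + 1) := by positivity
  have e1 : ∀ w : ℕ → ℝ, ∑ b ∈ R, (1 / 2 : ℝ) ^ (k + 1) * (((k + 1).choose b : ℝ) / 2 ^ (k + 1) *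
      w b) = (1 / 2) ^ (k + 1) / 2 ^ (k + 1) * ∑ b ∈ R, ((k + 1).choose b : ℝ) * w b := by
    intro w
    rw [Finset.mul_sum]
    refine Finset.sum_congr rfl fun b _ => ?_
    ring
  rw [e1] at h1 h2
  have e2 : ∑ b ∈ R, ((k + 1).choose b : ℝ) * (1 + (1 - 1) * qq (k + 1) b (MM D P)) =
      ∑ b ∈ R, ((k + 1).choose b : ℝ) := by
    refine Finset.sum_congr rfl fun b _ => ?_
    ring
  rw [e2] at h2
  have hpos : (0 : ℝ) < (1 / 2) ^ (k + 1) / 2 ^ (k + 1) * ∑ b ∈ R, ((k + 1).choose b : ℝ) :=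
    mul_pos hc hR
  refine ⟨?_, ?_⟩
  · filter_upwards [h2.eventually (lt_mem_nhds hpos)] with X hX
    by_contra h3
    have h4 : ((C8 (k + 1) D X).filter fun m => spn m ∈ R).card = 0 := by omega
    rw [h4, Nat.cast_zero, zero_div] at hX
    exact lt_irrefl _ hX
  · have h3 := h1.div h2 hpos.ne'
    rw [mul_div_mul_left _ _ hc.ne'] at h3
    refine h3.congr' ?_
    filter_upwards [(law_m (fun _ => 1) 1 1 uw_one hD hP k).1] with X hX
    have h4 : ((Ms (k + 1) D X).card : ℝ) ≠ 0 := by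
      have h5 : (0 : ℝ) < ((Ms (k + 1) D X).card : ℝ) := by exact_mod_cast hX
      exact h5.ne'
    rw [Pi.div_apply, div_div_div_cancel_right₀ h4]

/-- the criterion of the descent -/
theorem rz_iff {D : ℕ} (h : Ac D) : RankZeroShaTwo D ↔ (mat D).det ≠ 0 := by
  have hA : Adm D := ⟨h.1, fun p hp => (pc_p4 (h.2 p hp)).2⟩
  rw [good_iff h, Cor.det_iff hA]
  exact gd_eq h.2

/-- the criterion as an indicator -/
noncomputable def dI (D : ℕ) : ℝ := if (mat D).det ≠ 0 then 1 else 0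

theorem dI_val (D n : ℕ) (P : Fin n → ℕ) (_ : Adm D) (hP : En D n P) :
    dI D = uw 1 0 (cor (MM D P)) := by
  unfold dI uw
  by_cases h : (mat D).det ≠ 0
  · rw [if_pos h, if_pos]
    rw [cor_zero_iff, ← det_MM hP]
    exact h
  · rw [if_neg h, if_neg]
    rw [cor_zero_iff, ← det_MM hP]
    exact h

theorem ac_adm {D : ℕ} (h : Ac D) : Adm D := ⟨h.1, fun p hp => (pc_p4 (h.2 p hp)).2⟩

theorem ac_mul {K D X m : ℕ} (h : Ac D) (hm : m ∈ C8 K D X) : Ac (D * m) := by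
  obtain ⟨h1, h2⟩ := mem_C8.1 hm
  have h3 := mem_Ms.1 h1
  refine ⟨(Nat.squarefree_mul h3.2.2.2.2.symm).2 ⟨h.1, h3.2.1⟩, fun p hp => ?_⟩
  rw [Nat.primeFactors_mul h.1.ne_zero h3.2.1.ne_zero, Finset.mem_union] at hp
  rcases hp with hp | hp
  · exact h.2 p hp
  · exact (pc_iff (Nat.prime_of_mem_primeFactors hp)).2 (h2 p hp)

/-- **the law for the ranks and the groups `Ш`** -/
theorem law_rz {D n : ℕ} {P : Fin n → ℕ} (hD : Ac D) (hP : En D n P) (k : ℕ) (R : Finset ℕ)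
    (hR : 0 < ∑ b ∈ R, ((k + 1).choose b : ℝ)) :
    (∀ᶠ X : ℕ in atTop, 0 < ((C8 (k + 1) D X).filter fun m => spn m ∈ R).card) ∧
    Tendsto (fun X : ℕ => (∑ m ∈ (C8 (k + 1) D X).filter (fun m => spn m ∈ R),
      (if RankZeroShaTwo (D * m) then (1 : ℝ) else 0)) /
      (((C8 (k + 1) D X).filter fun m => spn m ∈ R).card : ℝ)) atTop
      (𝓝 ((∑ b ∈ R, ((k + 1).choose b : ℝ) * qq (k + 1) b (MM D P)) /
        ∑ b ∈ R, ((k + 1).choose b : ℝ))) := by
  obtain ⟨h1, h2⟩ := law8D dI 1 0 dI_val (ac_adm hD) hP k R hR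
  refine ⟨h1, ?_⟩
  have e : ∑ b ∈ R, ((k + 1).choose b : ℝ) * (0 + (1 - 0) * qq (k + 1) b (MM D P)) =
      ∑ b ∈ R, ((k + 1).choose b : ℝ) * qq (k + 1) b (MM D P) := by
    refine Finset.sum_congr rfl fun b _ => ?_
    ring
  rw [e] at h2
  refine h2.congr fun X => ?_
  congr 1
  refine Finset.sum_congr rfl fun m hm => ?_
  have h3 := rz_iff (ac_mul hD (Finset.mem_filter.1 hm).1)
  unfold dI
  exact ite_iff h3.symm

theorem spn_spl (m : ℕ) : spn m = (m.primeFactors.filter Spl).card := rfl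

/-- the residue modulo `8` -/
theorem mod8 {K D X m : ℕ} (hm : m ∈ C8 K D X) : spn m ≤ K ∧ m % 8 = 5 ^ (K - spn m) % 8 := by
  obtain ⟨h1, h2⟩ := mem_C8.1 hm
  have h3 := mem_Ms.1 h1
  have h4 : ∀ s : Finset ℕ, (∀ p ∈ s, S8 p) →
      (∏ p ∈ s, p) % 8 = 5 ^ (s.filter fun p => ¬ Spl p).card % 8 := by
    intro s
    induction s using Finset.induction_on with
    | empty =>
      intro _
      rfl
    | insert p s hp ih =>
      intro h
      have h5 := ih fun q hq => h q (Finset.mem_insert_of_mem hq)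
      rw [Finset.prod_insert hp, Finset.filter_insert]
      rcases h p (Finset.mem_insert_self p s) with h6 | h6
      · rw [if_neg (not_not.2 h6.2), Nat.mul_mod, h6.1, h5]
        omega
      · rw [if_pos h6.2, Finset.card_insert_of_notMem (fun h7 => hp (Finset.mem_filter.1 h7).1),
          Nat.mul_mod, h6.1, h5, pow_succ, mul_comm (5 ^ _) 5, Nat.mul_mod 5 (5 ^ _)]
  have h5 := h4 m.primeFactors h2
  rw [Nat.prod_primeFactors_of_squarefree h3.2.1] at h5
  have h6 := Finset.card_filter_add_card_filter_not (s := m.primeFactors) (p := fun p => Spl p)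
  rw [h3.2.2.1] at h6
  have h7 : spn m = (m.primeFactors.filter fun p => Spl p).card := rfl
  rw [← h7] at h6
  refine ⟨by omega, ?_⟩
  have h8 : K - spn m = (m.primeFactors.filter fun p => ¬ Spl p).card := by omega
  rw [h8]
  exact h5

end Pool.Agent.U687.J8
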