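import Pool.Agent.U687.J8.Law8

/-!
# The law in the class, for every member of the class: the statement with explicit definitions
-/

set_option autoImplicit false
set_option linter.unusedSectionVars false

open scoped Classical

namespace Pool.Agent.U687.J8.Main

open Filter Matrix Topology
open Pool.Agent.Results.MP_787500_nt.AllWeightsMultiquadraticX49 (RankZeroShaTwo Adm)

/-- squarefree, all prime factors `1 mod 8` and split in `ℚ(√-7)` or `5 mod 8` and inert in `ℚ(√-7)` -/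
def Class (D : ℕ) : Prop := Squarefree D ∧ ∀ p ∈ D.primeFactors,
  (p % 8 = 1 ∧ (p % 7 = 1 ∨ p % 7 = 2 ∨ p % 7 = 4)) ∨
  (p % 8 = 5 ∧ (p % 7 = 3 ∨ p % 7 = 5 ∨ p % 7 = 6))

/-- the split prime factors of a member of the class -/
noncomputable def splitPrimes (D : ℕ) : Finset ℕ := D.primeFactors.filter fun p => p % 8 = 1

/-- the `m ≤ X` of the class, prime to `D`, with exactly `K` prime factors, and `D m ≡ 1 mod 8` -/
noncomputable def multipliers (K D X : ℕ) : Finset ℕ :=
  (Finset.Icc 1 X).filter fun m =>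
    Class m ∧ m.primeFactors.card = K ∧ Nat.Coprime m D ∧ (D * m) % 8 = 1

/-- those with exactly `b` split prime factors -/
noncomputable def multipliersSplit (K b D X : ℕ) : Finset ℕ :=
  (multipliers K D X).filter fun m => (splitPrimes m).card = b

/-- the share of the `m` with the property `Q` in a set of numbers -/
noncomputable def share (N : Finset ℕ) (Q : ℕ → Prop) : ℝ := ((N.filter Q).card : ℝ) / (N.card : ℝ)

/-- the possible numbers of split prime factors of the multipliers -/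
def kinds (K D : ℕ) : Finset ℕ := (Finset.range (K + 1)).filter fun b => (D * 5 ^ (K - b)) % 8 = 1

/-- `P` enumerates the split prime factors of `D` -/
def IsEnumeration (D n : ℕ) (P : Fin n → ℕ) : Prop :=
  Function.Injective P ∧ splitPrimes D = Finset.univ.image P

/-- `1` if `m` is not a square modulo `p`, and `0` if it is -/
noncomputable def nonsq (p m : ℕ) : ZMod 2 := if IsSquare (m : ZMod p) then 0 else 1

/-- `1` if `-7` is not a fourth power modulo `p`, and `0` if it is -/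
noncomputable def nonfourth (p : ℕ) : ZMod 2 := if ∃ y : ZMod p, y ^ 4 = -7 then 0 else 1

/-- the matrix of the symbols -/
noncomputable def symbols (D : ℕ) {n : ℕ} (P : Fin n → ℕ) : Matrix (Fin n) (Fin n) (ZMod 2) :=
  Matrix.of fun i j =>
    if i = j then nonfourth (P i) + ∑ l ∈ D.primeFactors.erase (P i), nonsq (P i) l
    else nonsq (P i) (P j)

/-- the matrix `M` with the border `b` and the corner `d` -/
def bordered {n : ℕ} (M : Matrix (Fin n) (Fin n) (ZMod 2)) (d : ZMod 2) (b : Fin n → ZMod 2) :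
    Matrix (Fin (n + 1)) (Fin (n + 1)) (ZMod 2) :=
  Matrix.of (Fin.cons (Fin.cons d b) fun i => Fin.cons (b i) (M i))

/-- the share of the `v` for which the corank of `A + diag v` is `r` -/
noncomputable def diagonalLaw {n : ℕ} (A : Matrix (Fin n) (Fin n) (ZMod 2)) (r : ℕ) : ℝ :=
  (Nat.card {v : Fin n → ZMod 2 // (A + diagonal v).rank + r = n} : ℝ) / 2 ^ n

/-- the share of the pairs `(v, d)` for which the corank of `A + diag v`, with the border `v` and the
corner `d`, is `r` -/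
noncomputable def borderLaw {n : ℕ} (A : Matrix (Fin n) (Fin n) (ZMod 2)) (r : ℕ) : ℝ :=
  (Nat.card {x : (Fin n → ZMod 2) × ZMod 2 //
    (bordered (A + diagonal x.1) x.2 x.1).rank + r = n + 1} : ℝ) / 2 ^ (n + 1)

/-- one step of the Markov chain -/
noncomputable def markov (μ : ℕ → ℝ) (r : ℕ) : ℝ :=
  (1 - (1 / 2) ^ (r + 1)) * μ (r + 1) + (1 / 2) ^ (r + 1) * μ r +
    (if r = 0 then 0 else (1 / 2) ^ r * μ (r - 1))

/-- the probability of zero after `K` primes, `b` of them split -/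
noncomputable def prob (K b : ℕ) {n : ℕ} (A : Matrix (Fin n) (Fin n) (ZMod 2)) : ℝ :=
  if b = K then markov^[K - 1] (borderLaw A) 0 else markov^[b] (diagonalLaw A) 0

/-- the probability of zero for all the multipliers with `K` prime factors -/
noncomputable def total (K D : ℕ) {n : ℕ} (A : Matrix (Fin n) (Fin n) (ZMod 2)) : ℝ :=
  ∑ b ∈ kinds K D, (K.choose b : ℝ) / 2 ^ (K - 1) * prob K b A

/-- `∏_{i ≥ 0} (1 - 2^{-(2i+1)}) = 0.4194...` -/
noncomputable def limit : ℝ := ∏' i : ℕ, (1 - (1 / 2 : ℝ) ^ (2 * i + 1))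

open Pool.Agent.U687.Q2 (mu nu mu_share nu_share TT cor MM En exists_en MM_symm lim2 lim2_facts)
open Pool.Agent.U687.NO (Ms mem_Ms qq qq_facts spn card_as_sum)
open Pool.Agent.R426.QB (Ac Pc)
open Pool.Agent.U120.MF (Spl)
open Pool.Agent.U687.J8

theorem class_iff (m : ℕ) : Class m ↔ Ac m := by
  constructor
  · rintro ⟨h1, h2⟩
    exact ⟨h1, fun p hp => ⟨Nat.prime_of_mem_primeFactors hp, h2 p hp⟩⟩
  · rintro ⟨h1, h2⟩
    exact ⟨h1, fun p hp => (h2 p hp).2⟩

theorem split_eq {m : ℕ} (h : Ac m) : splitPrimes m = m.primeFactors.filter Spl := by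
  unfold splitPrimes
  refine Finset.filter_congr fun p hp => ?_
  have h1 := h.2 p hp
  rcases (pc_iff h1.1).1 h1 with h2 | h2
  · exact ⟨fun _ => h2.2, fun _ => h2.1⟩
  · constructor
    · intro h3
      omega
    · intro h3
      exact absurd h3 h2.2

theorem en_iff {D n : ℕ} {P : Fin n → ℕ} (h : Ac D) : IsEnumeration D n P ↔ En D n P := by
  unfold IsEnumeration
  rw [split_eq h]
  rfl

theorem diagonalLaw_eq {n : ℕ} (A : Matrix (Fin n) (Fin n) (ZMod 2)) : diagonalLaw A = mu A :=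
  funext fun r => (mu_share A r).symm

theorem borderLaw_eq {n : ℕ} (A : Matrix (Fin n) (Fin n) (ZMod 2)) : borderLaw A = nu A :=
  funext fun r => (nu_share A r).symm

theorem prob_eq (K b : ℕ) {n : ℕ} (A : Matrix (Fin n) (Fin n) (ZMod 2)) : prob K b A = qq K b A := by
  unfold prob qq
  rw [diagonalLaw_eq, borderLaw_eq]
  rfl

theorem mul_mod8 {K D X m : ℕ} (hm : m ∈ C8 K D X) :
    (D * m) % 8 = 1 ↔ (D * 5 ^ (K - spn m)) % 8 = 1 := by
  rw [Nat.mul_mod, (mod8 hm).2, ← Nat.mul_mod]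

theorem mem_c8 {K D X m : ℕ} : m ∈ C8 K D X ↔
    m ∈ Finset.Icc 1 X ∧ Class m ∧ m.primeFactors.card = K ∧ Nat.Coprime m D := by
  rw [mem_C8, mem_Ms, class_iff, Finset.mem_Icc]
  constructor
  · rintro ⟨⟨h1, h2, h3, h4, h5⟩, h6⟩
    exact ⟨h1, ⟨h2, fun p hp => (pc_iff (Nat.prime_of_mem_primeFactors hp)).2 (h6 p hp)⟩, h3, h5⟩
  · rintro ⟨h1, h2, h3, h4⟩
    exact ⟨⟨h1, h2.1, h3, fun p hp => (pc_p4 (h2.2 p hp)).2, h4⟩,
      fun p hp => (pc_iff (Nat.prime_of_mem_primeFactors hp)).1 (h2.2 p hp)⟩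

theorem mult_eq (K D X : ℕ) :
    multipliers K D X = (C8 K D X).filter fun m => spn m ∈ kinds K D := by
  ext m
  have h1 : m ∈ multipliers K D X ↔ m ∈ Finset.Icc 1 X ∧
      Class m ∧ m.primeFactors.card = K ∧ Nat.Coprime m D ∧ (D * m) % 8 = 1 := Finset.mem_filter
  have h2 : m ∈ ((C8 K D X).filter fun m => spn m ∈ kinds K D) ↔
      m ∈ C8 K D X ∧ spn m ∈ kinds K D := Finset.mem_filter
  have h3 : spn m ∈ kinds K D ↔ spn m ∈ Finset.range (K + 1) ∧ (D * 5 ^ (K - spn m)) % 8 = 1 :=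
    Finset.mem_filter
  rw [h1, h2, h3, Finset.mem_range]
  constructor
  · rintro ⟨g1, g2, g3, g4, g5⟩
    have g6 : m ∈ C8 K D X := mem_c8.2 ⟨g1, g2, g3, g4⟩
    have g7 := (mod8 g6).1
    exact ⟨g6, by omega, (mul_mod8 g6).1 g5⟩
  · rintro ⟨g1, -, g3⟩
    obtain ⟨g4, g5, g6, g7⟩ := mem_c8.1 g1
    exact ⟨g4, g5, g6, g7, (mul_mod8 g1).2 g3⟩

theorem split_eq2 {K D X b : ℕ} (hb : b ∈ kinds K D) :
    multipliersSplit K b D X = (C8 K D X).filter fun m => spn m ∈ ({b} : Finset ℕ) := by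
  ext m
  have h0 : m ∈ multipliersSplit K b D X ↔ m ∈ multipliers K D X ∧ (splitPrimes m).card = b :=
    Finset.mem_filter
  have h2 : m ∈ ((C8 K D X).filter fun m => spn m ∈ kinds K D) ↔
      m ∈ C8 K D X ∧ spn m ∈ kinds K D := Finset.mem_filter
  have h3 : m ∈ ((C8 K D X).filter fun m => spn m ∈ ({b} : Finset ℕ)) ↔
      m ∈ C8 K D X ∧ spn m ∈ ({b} : Finset ℕ) := Finset.mem_filter
  rw [h0, mult_eq, h2, h3, Finset.mem_singleton]
  have h4 : m ∈ C8 K D X → (splitPrimes m).card = spn m := by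
    intro g
    rw [split_eq ((class_iff m).1 (mem_c8.1 g).2.1)]
    rfl
  constructor
  · rintro ⟨⟨g1, -⟩, g3⟩
    exact ⟨g1, by rw [← h4 g1]; exact g3⟩
  · rintro ⟨g1, g2⟩
    refine ⟨⟨g1, by rw [g2]; exact hb⟩, by rw [h4 g1]; exact g2⟩

theorem share_sum (N : Finset ℕ) (Q : ℕ → Prop) :
    share N Q = (∑ m ∈ N, if Q m then (1 : ℝ) else 0) / (N.card : ℝ) := by
  unfold share
  rw [card_as_sum (N.filter Q), Finset.sum_filter]

theorem adm_of {K D X m : ℕ} (hD : Ac D) (hm : m ∈ multipliers K D X) : Adm (D * m) := by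
  have h1 : m ∈ Finset.Icc 1 X ∧
      Class m ∧ m.primeFactors.card = K ∧ Nat.Coprime m D ∧ (D * m) % 8 = 1 :=
    Finset.mem_filter.1 hm
  have h2 := ac_mul hD (mem_c8.2 ⟨h1.1, h1.2.1, h1.2.2.1, h1.2.2.2.1⟩)
  exact ⟨h2.1, h1.2.2.2.2, fun p hp hd => (h2.2 p (Nat.mem_primeFactors.2 ⟨hp, hd, h2.1.ne_zero⟩)).2⟩

theorem mod_class {D : ℕ} (hD : Ac D) : D % 8 = 1 ∨ D % 8 = 5 := by
  have h4 : ∀ s : Finset ℕ, (∀ p ∈ s, Pc p) → (∏ p ∈ s, p) % 8 = 1 ∨ (∏ p ∈ s, p) % 8 = 5 := by
    intro s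
    induction s using Finset.induction_on with
    | empty =>
      intro _
      exact Or.inl rfl
    | insert p s hp ih =>
      intro h
      have h5 := ih fun q hq => h q (Finset.mem_insert_of_mem hq)
      rw [Finset.prod_insert hp, Nat.mul_mod]
      rcases (h p (Finset.mem_insert_self p s)).or8 with h6 | h6 <;> rcases h5 with h7 | h7 <;>
        rw [h6, h7]
      · exact Or.inl rfl
      · exact Or.inr rfl
      · exact Or.inr rfl
      · exact Or.inl rfl
  have h5 := h4 D.primeFactors hD.2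
  rwa [Nat.prod_primeFactors_of_squarefree hD.1] at h5

theorem five_pow (j : ℕ) : 5 ^ j % 8 = 1 ∧ (-1 : ℝ) ^ j = 1 ∨ 5 ^ j % 8 = 5 ∧ (-1 : ℝ) ^ j = -1 := by
  induction j with
  | zero => exact Or.inl ⟨rfl, pow_zero _⟩
  | succ j ih =>
    rw [pow_succ, pow_succ, Nat.mul_mod]
    rcases ih with h | h
    · rw [h.1, h.2]
      exact Or.inr ⟨rfl, by norm_num⟩
    · rw [h.1, h.2]
      exact Or.inl ⟨rfl, by norm_num⟩

/-- the sum of the binomial coefficients of one parity -/
theorem sum_kinds {D : ℕ} (hD : Ac D) (k : ℕ) :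
    ∑ b ∈ kinds (k + 1) D, ((k + 1).choose b : ℝ) = 2 ^ k := by
  obtain ⟨ε, hε⟩ : ∃ ε : ℝ, ∀ j : ℕ, (if (D * 5 ^ j) % 8 = 1 then (1 : ℝ) else 0) =
      (1 + ε * (-1) ^ j) / 2 := by
    rcases mod_class hD with h | h
    · refine ⟨1, fun j => ?_⟩
      rcases five_pow j with h2 | h2
      · rw [h2.2, if_pos (by rw [Nat.mul_mod, h, h2.1])]
        norm_num
      · rw [h2.2, if_neg (by rw [Nat.mul_mod, h, h2.1]; decide)]
        norm_num
    · refine ⟨-1, fun j => ?_⟩
      rcases five_pow j with h2 | h2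
      · rw [h2.2, if_neg (by rw [Nat.mul_mod, h, h2.1]; decide)]
        norm_num
      · rw [h2.2, if_pos (by rw [Nat.mul_mod, h, h2.1])]
        norm_num
  unfold kinds
  rw [Finset.sum_filter]
  have h1 : ∀ b ∈ Finset.range (k + 1 + 1), (if (D * 5 ^ (k + 1 - b)) % 8 = 1 then
      ((k + 1).choose b : ℝ) else 0) = (1 / 2) * (1 ^ b * 1 ^ (k + 1 - b) * ((k + 1).choose b : ℝ)) +
        (ε / 2) * (1 ^ b * (-1) ^ (k + 1 - b) * ((k + 1).choose b : ℝ)) := by
    intro b _
    have h2 := hε (k + 1 - b)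
    by_cases h3 : (D * 5 ^ (k + 1 - b)) % 8 = 1
    · rw [if_pos h3] at h2 ⊢
      rw [one_pow, one_pow]
      linear_combination ((k + 1).choose b : ℝ) * h2
    · rw [if_neg h3] at h2 ⊢
      rw [one_pow, one_pow]
      linear_combination ((k + 1).choose b : ℝ) * h2
  rw [Finset.sum_congr rfl h1, Finset.sum_add_distrib, ← Finset.mul_sum, ← Finset.mul_sum,
    ← add_pow, ← add_pow]
  norm_num
  rw [pow_succ]
  ring

theorem kinds_le {K D b : ℕ} (hb : b ∈ kinds K D) : b ≤ K := by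
  have h1 := (Finset.mem_filter.1 hb).1
  rw [Finset.mem_range] at h1
  omega

/-- the lower bound and the distance to the limit -/
theorem total_facts {D n : ℕ} (hD : Ac D) {A : Matrix (Fin n) (Fin n) (ZMod 2)} (hA : A.IsSymm)
    (k : ℕ) : (1 / 2 : ℝ) ^ (n + k + 2) ≤ total (k + 1) D A ∧
    |total (k + 1) D A - limit| ≤
      4 * (∏ i ∈ Finset.range n, ((2 : ℝ) ^ (i + 1) - 1)) * (3 / 4) ^ (k + 1) := by
  have hS := sum_kinds hD k
  have h2k : (0 : ℝ) < 2 ^ k := by positivity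
  have hL : limit = lim2 := rfl
  have hC : (0 : ℝ) ≤ ∏ i ∈ Finset.range n, ((2 : ℝ) ^ (i + 1) - 1) := by
    refine Finset.prod_nonneg fun i _ => ?_
    have : (1 : ℝ) ≤ 2 ^ (i + 1) := one_le_pow₀ (by norm_num)
    linarith
  have hw : ∑ b ∈ kinds (k + 1) D, ((k + 1).choose b : ℝ) / 2 ^ k = 1 := by
    rw [← Finset.sum_div, hS, div_self h2k.ne']
  have hT : total (k + 1) D A = ∑ b ∈ kinds (k + 1) D, ((k + 1).choose b : ℝ) / 2 ^ k *
      qq (k + 1) b A := by
    unfold total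
    refine Finset.sum_congr rfl fun b _ => ?_
    rw [prob_eq, Nat.add_sub_cancel]
  rw [hT, hL]
  constructor
  · have h1 : (1 / 2 : ℝ) ^ (n + k + 2) = ∑ b ∈ kinds (k + 1) D, ((k + 1).choose b : ℝ) / 2 ^ k *
        (1 / 2) ^ (n + k + 2) := by
      rw [← Finset.sum_mul, hw, one_mul]
    rw [h1]
    refine Finset.sum_le_sum fun b hb => mul_le_mul_of_nonneg_left ?_ (by positivity)
    refine le_trans ?_ (qq_facts hA (k + 1) b (by omega) (kinds_le hb)).1
    have := kinds_le hb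
    exact pow_le_pow_of_le_one (by norm_num) (by norm_num) (by omega)
  · have h1 : ∑ b ∈ kinds (k + 1) D, ((k + 1).choose b : ℝ) / 2 ^ k * qq (k + 1) b A - lim2 =
        ∑ b ∈ kinds (k + 1) D, ((k + 1).choose b : ℝ) / 2 ^ k * (qq (k + 1) b A - lim2) := by
      have h2 : lim2 = ∑ b ∈ kinds (k + 1) D, ((k + 1).choose b : ℝ) / 2 ^ k * lim2 := by
        rw [← Finset.sum_mul, hw, one_mul]
      conv_lhs => rw [h2]
      rw [← Finset.sum_sub_distrib (fun b => ((k + 1).choose b : ℝ) / 2 ^ k * qq (k + 1) b A)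
        (fun b => ((k + 1).choose b : ℝ) / 2 ^ k * lim2)]
      refine Finset.sum_congr rfl fun b _ => ?_
      ring
    rw [h1]
    refine (Finset.abs_sum_le_sum_abs _ _).trans ?_
    have h3 : ∀ b ∈ kinds (k + 1) D, |((k + 1).choose b : ℝ) / 2 ^ k * (qq (k + 1) b A - lim2)| ≤
        (2 * (∏ i ∈ Finset.range n, ((2 : ℝ) ^ (i + 1) - 1)) / 2 ^ k) *
          ((1 / 2) ^ b * 1 ^ (k + 1 - b) * ((k + 1).choose b : ℝ)) := by
      intro b hb
      have hbk := kinds_le hb
      have h4 := (qq_facts hA (k + 1) b (by omega) hbk).2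
      rw [Nat.add_sub_cancel] at h4
      have h5 : (1 / 2 : ℝ) ^ min b k ≤ 2 * (1 / 2) ^ b := by
        by_cases h6 : b ≤ k
        · rw [min_eq_left h6]
          have : (0 : ℝ) ≤ (1 / 2) ^ b := by positivity
          linarith
        · have h7 : b = k + 1 := by omega
          rw [h7, min_eq_right (by omega), pow_succ]
          apply le_of_eq
          ring
      rw [abs_mul, abs_of_nonneg (by positivity : (0 : ℝ) ≤ ((k + 1).choose b : ℝ) / 2 ^ k), one_pow,
        mul_one]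
      have h8 : |qq (k + 1) b A - lim2| ≤
          (∏ i ∈ Finset.range n, ((2 : ℝ) ^ (i + 1) - 1)) * (2 * (1 / 2) ^ b) :=
        h4.trans (mul_le_mul_of_nonneg_left h5 hC)
      refine (mul_le_mul_of_nonneg_left h8 (by positivity)).trans (le_of_eq ?_)
      ring
    refine (Finset.sum_le_sum h3).trans ?_
    rw [← Finset.mul_sum]
    have h9 : ∑ b ∈ kinds (k + 1) D, (1 / 2 : ℝ) ^ b * 1 ^ (k + 1 - b) * ((k + 1).choose b : ℝ) ≤
        (3 / 2) ^ (k + 1) := by
      have h10 : ∑ b ∈ Finset.range (k + 1 + 1), (1 / 2 : ℝ) ^ b * 1 ^ (k + 1 - b) *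
          ((k + 1).choose b : ℝ) = (3 / 2) ^ (k + 1) := by
        rw [← add_pow]
        norm_num
      rw [← h10]
      exact Finset.sum_le_sum_of_subset_of_nonneg (Finset.filter_subset _ _) fun b _ _ => by positivity
    refine (mul_le_mul_of_nonneg_left h9 (by positivity)).trans (le_of_eq ?_)
    have h11 : (3 / 2 : ℝ) ^ (k + 1) = (3 / 4) ^ (k + 1) * 2 ^ (k + 1) := by
      rw [← mul_pow]
      norm_num
    rw [h11, pow_succ (2 : ℝ) k]
    field_simp
    ring

/-- a property of a share of numbers -/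
theorem lower {N : ℕ → Finset ℕ} {P Q : ℕ → Prop} {L : ℝ}
    (h : Tendsto (fun X => share (N X) P) atTop (𝓝 L)) (hPQ : ∀ X, ∀ m ∈ N X, P m → Q m) :
    ∀ x < L, ∀ᶠ X in atTop, x < share (N X) Q := by
  intro x hx
  filter_upwards [h.eventually (lt_mem_nhds hx)] with X hX
  refine lt_of_lt_of_le hX ?_
  unfold share
  refine div_le_div_of_nonneg_right ?_ (Nat.cast_nonneg _)
  have h1 : (N X).filter P ⊆ (N X).filter Q := fun m hm =>
    Finset.mem_filter.2 ⟨(Finset.mem_filter.1 hm).1, hPQ X m (Finset.mem_filter.1 hm).1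
      (Finset.mem_filter.1 hm).2⟩
  exact_mod_cast Finset.card_le_card h1

/-- **Theorem.** -/
theorem main (Q : ℕ → Prop) (hQ : ∀ N : ℕ, Adm N → RankZeroShaTwo N → Q N) :
    (∀ D : ℕ, Class D → ∃ P, IsEnumeration D (splitPrimes D).card P) ∧
    (∀ (D n K : ℕ) (P : Fin n → ℕ), Class D → IsEnumeration D n P → 1 ≤ K →
      (∀ᶠ X in atTop, (multipliers K D X).Nonempty) ∧
      (∀ X, ∀ m ∈ multipliers K D X, RankZeroShaTwo (D * m) → Q (D * m)) ∧
      (∀ b ∈ kinds K D, (∀ᶠ X in atTop, (multipliersSplit K b D X).Nonempty) ∧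
        Tendsto (fun X => share (multipliersSplit K b D X) fun m => RankZeroShaTwo (D * m)) atTop
          (𝓝 (prob K b (symbols D P))) ∧
        (∀ x < prob K b (symbols D P), ∀ᶠ X in atTop,
          x < share (multipliersSplit K b D X) fun m => Q (D * m)) ∧
        (1 / 2 : ℝ) ^ (n + b + 1) ≤ prob K b (symbols D P) ∧
        |prob K b (symbols D P) - limit| ≤
          (∏ i ∈ Finset.range n, ((2 : ℝ) ^ (i + 1) - 1)) * (1 / 2) ^ min b (K - 1)) ∧
      Tendsto (fun X => share (multipliers K D X) fun m => RankZeroShaTwo (D * m)) atTop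
        (𝓝 (total K D (symbols D P))) ∧
      (∀ x < total K D (symbols D P), ∀ᶠ X in atTop,
        x < share (multipliers K D X) fun m => Q (D * m)) ∧
      (1 / 2 : ℝ) ^ (n + K + 1) ≤ total K D (symbols D P) ∧
      |total K D (symbols D P) - limit| ≤
        4 * (∏ i ∈ Finset.range n, ((2 : ℝ) ^ (i + 1) - 1)) * (3 / 4) ^ K) ∧
    (∀ (D n : ℕ) (P : Fin n → ℕ), Class D → IsEnumeration D n P →
      Tendsto (fun K => total K D (symbols D P)) atTop (𝓝 limit)) ∧
    (0.4194 : ℝ) < limit ∧ limit < 0.4195 := by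
  have h2 : ∀ (D n k : ℕ) (P : Fin n → ℕ), Class D → IsEnumeration D n P →
      (1 / 2 : ℝ) ^ (n + k + 2) ≤ total (k + 1) D (symbols D P) ∧
      |total (k + 1) D (symbols D P) - limit| ≤
        4 * (∏ i ∈ Finset.range n, ((2 : ℝ) ^ (i + 1) - 1)) * (3 / 4) ^ (k + 1) := by
    intro D n k P hD hP
    have hD' := (class_iff D).1 hD
    have hP' := (en_iff hD').1 hP
    exact total_facts hD' (MM_symm (ac_adm hD') hP') k
  refine ⟨fun D hD => ?_, fun D n K P hD hP hK => ?_, fun D n P hD hP => ?_, lim2_facts.2.2.2.1,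
    lim2_facts.2.2.2.2⟩
  · have hD' := (class_iff D).1 hD
    have e : Pool.Agent.Results.MP_4a9ea6_nt.TwoPartTwistsX49.split D = splitPrimes D :=
      (split_eq hD').symm
    obtain ⟨P, hP⟩ : ∃ P : Fin (splitPrimes D).card → ℕ, En D (splitPrimes D).card P := by
      rw [← e]
      exact exists_en D
    exact ⟨P, (en_iff hD').2 hP⟩
  · obtain ⟨k, rfl⟩ : ∃ k, K = k + 1 := ⟨K - 1, by omega⟩
    have hD' := (class_iff D).1 hD
    have hP' := (en_iff hD').1 hP
    have hA : (MM D P).IsSymm := MM_symm (ac_adm hD') hP'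
    have hS : symbols D P = MM D P := rfl
    have hkey : ∀ X, ∀ m ∈ multipliers (k + 1) D X, RankZeroShaTwo (D * m) → Q (D * m) :=
      fun X m hm h => hQ _ (adm_of hD' hm) h
    have hR : (0 : ℝ) < ∑ b ∈ kinds (k + 1) D, ((k + 1).choose b : ℝ) := by
      rw [sum_kinds hD' k]
      positivity
    obtain ⟨h3, h4⟩ := law_rz hD' hP' k (kinds (k + 1) D) hR
    have h5 : Tendsto (fun X => share (multipliers (k + 1) D X) fun m => RankZeroShaTwo (D * m)) atTop
        (𝓝 (total (k + 1) D (symbols D P))) := by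
      have e : (∑ b ∈ kinds (k + 1) D, ((k + 1).choose b : ℝ) * qq (k + 1) b (MM D P)) /
          ∑ b ∈ kinds (k + 1) D, ((k + 1).choose b : ℝ) = total (k + 1) D (symbols D P) := by
        rw [sum_kinds hD' k, Finset.sum_div]
        unfold total
        refine Finset.sum_congr rfl fun b _ => ?_
        rw [prob_eq, Nat.add_sub_cancel, hS]
        ring
      rw [← e]
      refine h4.congr fun X => ?_
      rw [share_sum, mult_eq]
    refine ⟨?_, hkey, fun b hb => ?_, h5, lower h5 hkey, ?_, (h2 D n k P hD hP).2⟩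
    · filter_upwards [h3] with X hX
      rw [mult_eq]
      exact Finset.card_pos.1 hX
    · have hb0 : (0 : ℝ) < ∑ b ∈ ({b} : Finset ℕ), ((k + 1).choose b : ℝ) := by
        rw [Finset.sum_singleton]
        exact_mod_cast Nat.choose_pos (kinds_le hb)
      obtain ⟨h6, h7⟩ := law_rz hD' hP' k {b} hb0
      have h8 : Tendsto (fun X => share (multipliersSplit (k + 1) b D X) fun m =>
          RankZeroShaTwo (D * m)) atTop (𝓝 (prob (k + 1) b (symbols D P))) := by
        rw [Finset.sum_singleton, Finset.sum_singleton] at h7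
        rw [Finset.sum_singleton] at hb0
        rw [mul_div_cancel_left₀ _ hb0.ne'] at h7
        rw [prob_eq, hS]
        refine h7.congr fun X => ?_
        rw [share_sum, split_eq2 hb]
      refine ⟨?_, h8, lower h8 fun X m hm h => hkey X m (Finset.mem_filter.1 hm).1 h, ?_⟩
      · filter_upwards [h6] with X hX
        rw [split_eq2 hb]
        exact Finset.card_pos.1 hX
      · rw [prob_eq, hS]
        exact qq_facts hA (k + 1) b hK (kinds_le hb)
    · have e : n + (k + 1) + 1 = n + k + 2 := by omega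
      rw [e]
      exact (h2 D n k P hD hP).1
  · have h3 : Tendsto (fun K : ℕ => 4 * (∏ i ∈ Finset.range n, ((2 : ℝ) ^ (i + 1) - 1)) *
        (3 / 4) ^ K) atTop (𝓝 0) := by
      have h4 := tendsto_pow_atTop_nhds_zero_of_lt_one (by norm_num : (0 : ℝ) ≤ 3 / 4)
        (by norm_num : (3 / 4 : ℝ) < 1)
      have h5 := h4.const_mul (4 * ∏ i ∈ Finset.range n, ((2 : ℝ) ^ (i + 1) - 1))
      rw [mul_zero] at h5
      exact h5
    rw [tendsto_iff_norm_sub_tendsto_zero]
    refine squeeze_zero' (Eventually.of_forall fun K => norm_nonneg _) ?_ h3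
    filter_upwards [eventually_ge_atTop 1] with K hK
    obtain ⟨k, rfl⟩ : ∃ k, K = k + 1 := ⟨K - 1, by omega⟩
    exact (h2 D n k P hD hP).2

end Pool.Agent.U687.J8.Main
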