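import Pool.Agent.U687.J8.Quad
import Pool.Agent.U687.NO.Match

/-!
# Matchings of primes `1` modulo `8` (split) and `5` modulo `8` (inert)
-/

set_option autoImplicit false
set_option linter.unusedSectionVars false

open scoped Classical

namespace Pool.Agent.U687.J8

open Finset Filter Topology
open Pool.Agent.U687.Q2 (av av_of cf Ci Cs Ca mean_all)
open Pool.Agent.U687.JT (nr2 n47 bad bad_spec)
open Pool.Agent.U687.NO
open Pool.Agent.U120.MF (Spl Mt not_fourth)

/-- `1` modulo `8` and split, or `5` modulo `8` and inert -/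
def S8 (p : ℕ) : Prop := (p % 8 = 1 ∧ Spl p) ∨ (p % 8 = 5 ∧ ¬ Spl p)

theorem nr2_two {p : ℕ} (hp : p.Prime) (h4 : p % 4 = 1) : nr2 p 2 = 0 ↔ p % 8 = 1 := by
  haveI : Fact p.Prime := ⟨hp⟩
  rw [nr2_zero]
  have h2 : p ≠ 2 := by rintro rfl; omega
  have e : ((2 : ℕ) : ZMod p) = 2 := by norm_num
  rw [e, ZMod.exists_sq_eq_two_iff h2]
  omega

theorem ite_iff {P Q : Prop} {dP : Decidable P} {dQ : Decidable Q} (h : P ↔ Q) :
    (if P then (1 : ℝ) else 0) = if Q then 1 else 0 := by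
  by_cases hP : P
  · rw [if_pos hP, if_pos (h.1 hP)]
  · rw [if_neg hP, if_neg fun hQ => hP (h.2 hQ)]

theorem z2' (a : ZMod 2) : a = 0 ∨ a = 1 := by revert a; decide

theorem card_one {β : Type} (f : ((({2} : Finset ℕ) : Finset ℕ) → ZMod 2) × β → Prop)
    (u₀ : (({2} : Finset ℕ) → ZMod 2) × β) (h0 : f u₀) (h : ∀ u, f u → u = u₀) :
    Nat.card {u : (({2} : Finset ℕ) → ZMod 2) × β // f u} = 1 := by
  rw [Nat.card_eq_one_iff_unique]
  exact ⟨⟨fun a b => Subtype.ext ((h _ a.2).trans (h _ b.2).symm)⟩, ⟨⟨u₀, h0⟩⟩⟩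

theorem fun_ext2 {u v : ({2} : Finset ℕ) → ZMod 2}
    (h : u ⟨2, Finset.mem_singleton_self 2⟩ = v ⟨2, Finset.mem_singleton_self 2⟩) : u = v := by
  funext r
  obtain ⟨r, hr⟩ := r
  have h1 := Finset.mem_singleton.1 hr
  subst h1
  exact h

/-- **the means of the functions of the symbol of `2` and of the quartic symbol** -/
theorem mean_two (Gi : ZMod 2 → ℝ) (Gs : ZMod 2 → ZMod 2 → ℝ) (T : ℕ → ℝ)
    (hi : ∀ l : ℕ, l.Prime → Ci l → T l = Gi (nr2 l 2))
    (hs : ∀ l : ℕ, l.Prime → Cs l → T l = Gs (nr2 l 2) (n47 l)) :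
    Tendsto (av Ca 1 T) atTop
      (𝓝 (((Gi 0 + Gi 1) / 2 + (Gs 0 0 + Gs 0 1 + Gs 1 0 + Gs 1 1) / 4) / 2)) := by
  have hR : ∀ r ∈ ({2} : Finset ℕ), r.Prime ∧ (r % 4 = 1 ∨ r = 2) := fun r hr => by
    rw [Finset.mem_singleton.1 hr]
    exact ⟨Nat.prime_two, Or.inr rfl⟩
  have h1 : Tendsto (av Ci 1 T) atTop (𝓝 ((Gi 0 + Gi 1) / 2)) := by
    have h := av_of Ci 1 (fun l => nr2 l 2) Gi T (fun l hl hc _ => hi l hl hc) 2 (by
      intro x
      have hq := quad_inert2 ({2} : Finset ℕ) hR 1 one_pos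
        (fun u => u ⟨2, Finset.mem_singleton_self 2⟩ = x)
        (fun l => ¬ l ∣ 1 ∧ nr2 l 2 = x) (by
          intro p _ hpN _ _
          exact ⟨fun h => ⟨(bad_spec hpN).2.2.2, h⟩, fun h => h.2⟩)
      have e1 : Nat.card {u : ({2} : Finset ℕ) → ZMod 2 //
          u ⟨2, Finset.mem_singleton_self 2⟩ = x} = 1 := by
        rw [Nat.card_eq_one_iff_unique]
        exact ⟨⟨fun a b => Subtype.ext (fun_ext2 (a.2.trans b.2.symm))⟩, ⟨⟨fun _ => x, rfl⟩⟩⟩
      rw [e1, Nat.cast_one, Finset.card_singleton, pow_one] at hq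
      refine hq.congr fun X => ?_
      refine congrArg₂ (fun a b : ℕ => (a : ℝ) / (b : ℝ)) (cf _ _ fun l => ?_)
        (cf _ _ fun l => ?_)
      · unfold Ci
        tauto
      · unfold Ci
        tauto)
    rwa [sum_zmod2] at h
  have h2 : Tendsto (av Cs 1 T) atTop (𝓝 ((Gs 0 0 + Gs 0 1 + Gs 1 0 + Gs 1 1) / 4)) := by
    have h := av_of Cs 1 (fun l => (nr2 l 2, n47 l)) (fun u : ZMod 2 × ZMod 2 => Gs u.1 u.2) T
      (fun l hl hc _ => hs l hl hc) 4 (by
      intro x
      have hq := quad_split2 ({2} : Finset ℕ) hR 1 one_pos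
        (fun u => (u.1 ⟨2, Finset.mem_singleton_self 2⟩, u.2) = x)
        (fun l => ¬ l ∣ 1 ∧ (nr2 l 2, n47 l) = x) (by
          intro p _ hpN _ _
          exact ⟨fun h => ⟨(bad_spec hpN).2.2.2, h⟩, fun h => h.2⟩)
      have e1 : Nat.card {u : (({2} : Finset ℕ) → ZMod 2) × ZMod 2 //
          (u.1 ⟨2, Finset.mem_singleton_self 2⟩, u.2) = x} = 1 := by
        rw [Nat.card_eq_one_iff_unique]
        refine ⟨⟨fun a b => Subtype.ext ?_⟩, ⟨⟨(fun _ => x.1, x.2), rfl⟩⟩⟩
        have h3 := a.2.trans b.2.symm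
        exact Prod.ext (fun_ext2 (Prod.ext_iff.1 h3).1) (Prod.ext_iff.1 h3).2
      rw [e1, Nat.cast_one, Finset.card_singleton] at hq
      have e2 : (2 : ℝ) ^ (1 + 1) = 4 := by norm_num
      rw [e2] at hq
      refine hq.congr fun X => ?_
      refine congrArg₂ (fun a b : ℕ => (a : ℝ) / (b : ℝ)) (cf _ _ fun l => ?_)
        (cf _ _ fun l => ?_)
      · unfold Cs
        tauto
      · unfold Cs
        tauto)
    rw [Fintype.sum_prod_type, sum_zmod2, sum_zmod2, sum_zmod2] at h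
    have e : Gs 0 0 + Gs 0 1 + (Gs 1 0 + Gs 1 1) = Gs 0 0 + Gs 0 1 + Gs 1 0 + Gs 1 1 := by ring
    rwa [e] at h
  exact mean_all h1 h2

/-- the means over the primes -/
theorem mean_pr2 (T : ℕ → ℝ) (μ : ℝ) (h : Tendsto (av Ca 1 T) atTop (𝓝 μ)) :
    Tendsto (fun Z : ℕ => (∑ p ∈ pr Z, (T p - μ)) / ((pr Z).card : ℝ)) atTop (𝓝 0) := by
  have h2 := av_const (D := 1) one_ne_zero μ
  have h3 := h.sub h2
  rw [sub_self] at h3
  refine h3.congr fun Z => ?_
  have e1 : ∀ φ : ℕ → ℝ, av Ca 1 φ Z = (∑ p ∈ pr Z, φ p) / ((pr Z).card : ℝ) := by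
    intro φ
    unfold av pr
    congr 1
    refine Finset.sum_congr ?_ fun _ _ => rfl
    ext p
    rw [Finset.mem_filter, Finset.mem_filter]
    constructor
    · rintro ⟨g1, g2, g3, -⟩
      exact ⟨g1, g2, g3⟩
    · rintro ⟨g1, g2, g3⟩
      exact ⟨g1, g2, g3, fun h => g2.one_lt.ne' (Nat.dvd_one.1 h)⟩
  rw [e1, e1, ← sub_div, ← Finset.sum_sub_distrib]

/-- the function of one coordinate -/
noncomputable def g8 {K : ℕ} (S : Finset (Fin K)) (i : Fin K) (p : ℕ) : ℝ :=
  if Cg S i p ∧ S8 p then 1 else 0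

theorem g8_mean {K : ℕ} (S : Finset (Fin K)) (i : Fin K) :
    Tendsto (av Ca 1 (g8 S i)) atTop (𝓝 (mS S i / 2)) := by
  have h := mean_two (fun a => if i ∉ S ∧ a = 1 then 1 else 0)
    (fun a b => if i ∈ S ∧ a = 0 ∧ b = 1 then 1 else 0) (g8 S i) (by
      intro l hl hc
      have h1 := nr2_two hl hc.1
      have h2 : ¬ Spl l := hc.2
      unfold g8 Cg S8
      by_cases hi : i ∈ S
      · rw [if_neg fun h => h2 (h.1.1 hi).1, if_neg fun h => h.1 hi]
      · rcases z2' (nr2 l 2) with h3 | h3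
        · have h4 := h1.1 h3
          rw [if_neg, if_neg]
          · rintro ⟨-, h5⟩
            rw [h3] at h5
            exact absurd h5 zero_ne_one
          · rintro ⟨-, h5 | h5⟩
            · exact h2 h5.2
            · omega
        · have h4 : ¬ l % 8 = 1 := fun h => by
            rw [h1.2 h] at h3
            exact absurd h3 zero_ne_one
          have h5 := hc.1
          rw [if_pos ⟨⟨fun h => absurd h hi, fun _ => h2⟩, Or.inr ⟨by omega, h2⟩⟩, if_pos ⟨hi, h3⟩])
    (by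
      intro l hl hc
      have h1 := nr2_two hl hc.1
      have h2 : Spl l := hc.2
      unfold g8 Cg S8
      by_cases hi : i ∈ S
      · rcases z2' (nr2 l 2) with h3 | h3
        · have h4 := h1.1 h3
          by_cases h5 : ∃ y : ZMod l, y ^ 4 = -7
          · have h6 : n47 l = 0 := by
              unfold n47
              rw [if_pos h5]
            rw [if_neg fun h => (h.1.1 hi).2 h5, if_neg]
            rintro ⟨-, -, h7⟩
            rw [h6] at h7
            exact absurd h7 zero_ne_one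
          · have h6 : n47 l = 1 := by
              unfold n47
              rw [if_neg h5]
            rw [if_pos ⟨⟨fun _ => ⟨h2, h5⟩, fun h => absurd hi h⟩, Or.inl ⟨h4, h2⟩⟩,
              if_pos ⟨hi, h3, h6⟩]
        · have h4 : ¬ l % 8 = 1 := fun h => by
            rw [h1.2 h] at h3
            exact absurd h3 zero_ne_one
          rw [if_neg, if_neg]
          · rintro ⟨-, h5, -⟩
            rw [h3] at h5
            exact absurd h5 one_ne_zero
          · rintro ⟨-, h5 | h5⟩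
            · exact h4 h5.1
            · exact h5.2 h2
      · rw [if_neg fun h => h.1.2 hi h2, if_neg fun h => hi h.1])
  have e : (((if i ∉ S ∧ (0 : ZMod 2) = 1 then (1 : ℝ) else 0) +
      (if i ∉ S ∧ (1 : ZMod 2) = 1 then 1 else 0)) / 2 +
      ((if i ∈ S ∧ (0 : ZMod 2) = 0 ∧ (0 : ZMod 2) = 1 then (1 : ℝ) else 0) +
      (if i ∈ S ∧ (0 : ZMod 2) = 0 ∧ (1 : ZMod 2) = 1 then 1 else 0) +
      (if i ∈ S ∧ (1 : ZMod 2) = 0 ∧ (0 : ZMod 2) = 1 then 1 else 0) +
      (if i ∈ S ∧ (1 : ZMod 2) = 0 ∧ (1 : ZMod 2) = 1 then 1 else 0)) / 4) / 2 = mS S i / 2 := by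
    unfold mS
    have z1 : ¬ ((0 : ZMod 2) = 1) := zero_ne_one
    have z2 : ¬ ((1 : ZMod 2) = 0) := one_ne_zero
    by_cases hi : i ∈ S
    · simp only [hi, z1, z2, not_true_eq_false, false_and, and_false, true_and, if_true, if_false]
      norm_num
    · simp only [hi, z1, z2, not_false_eq_true, false_and, and_false, true_and, if_true, if_false]
      norm_num
  rw [← e]
  exact h

theorem s8_mean : Tendsto (av Ca 1 fun p => if S8 p then (1 : ℝ) else 0) atTop (𝓝 (1 / 2)) := by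
  have h := mean_two (fun a => if a = 1 then 1 else 0) (fun a _ => if a = 0 then 1 else 0)
    (fun p => if S8 p then (1 : ℝ) else 0) (by
      intro l hl hc
      have h1 := nr2_two hl hc.1
      have h2 : ¬ Spl l := hc.2
      unfold S8
      rcases z2' (nr2 l 2) with h3 | h3
      · have h4 := h1.1 h3
        rw [if_neg, if_neg]
        · rw [h3]
          exact zero_ne_one
        · rintro (h5 | h5)
          · exact h2 h5.2
          · omega
      · have h4 : ¬ l % 8 = 1 := fun h => by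
          rw [h1.2 h] at h3
          exact absurd h3 zero_ne_one
        have h5 := hc.1
        rw [if_pos (Or.inr ⟨by omega, h2⟩), if_pos h3])
    (by
      intro l hl hc
      have h1 := nr2_two hl hc.1
      have h2 : Spl l := hc.2
      unfold S8
      rcases z2' (nr2 l 2) with h3 | h3
      · have h4 := h1.1 h3
        rw [if_pos (Or.inl ⟨h4, h2⟩), if_pos h3]
      · have h4 : ¬ l % 8 = 1 := fun h => by
          rw [h1.2 h] at h3
          exact absurd h3 zero_ne_one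
        rw [if_neg, if_neg]
        · rw [h3]
          exact one_ne_zero
        · rintro (h5 | h5)
          · exact h4 h5.1
          · exact h5.2 h2)
  have e : (((if (0 : ZMod 2) = 1 then (1 : ℝ) else 0) + (if (1 : ZMod 2) = 1 then 1 else 0)) / 2 +
      ((if (0 : ZMod 2) = 0 then (1 : ℝ) else 0) + (if (0 : ZMod 2) = 0 then 1 else 0) +
      (if (1 : ZMod 2) = 0 then 1 else 0) + (if (1 : ZMod 2) = 0 then 1 else 0)) / 4) / 2 =
      1 / 2 := by
    have z1 : ¬ ((0 : ZMod 2) = 1) := zero_ne_one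
    have z2 : ¬ ((1 : ZMod 2) = 0) := one_ne_zero
    simp only [z1, z2, if_true, if_false]
    norm_num
  rw [← e]
  exact h

theorem g8_prod {K : ℕ} (S : Finset (Fin K)) (σ : Equiv.Perm (Fin K)) (x : Fin K → ℕ) :
    (∏ i, g8 S i (x i)) * ∏ z ∈ Cp S, ((1 + ep σ z * sn (nr2 (x z.1) (x z.2))) / 2) =
      if Cc S σ x ∧ ∀ i, S8 (x i) then 1 else 0 := by
  have h1 : ∀ i ∈ (univ : Finset (Fin K)), g8 S i (x i) = gS S i (x i) *
      (if S8 (x i) then 1 else 0) := by
    intro i _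
    unfold g8 gS
    by_cases h2 : Cg S i (x i)
    · by_cases h3 : S8 (x i)
      · rw [if_pos ⟨h2, h3⟩, if_pos h2, if_pos h3, one_mul]
      · rw [if_neg fun h => h3 h.2, if_neg h3, mul_zero]
    · rw [if_neg fun h => h2 h.1, if_neg h2, zero_mul]
  rw [Finset.prod_congr rfl h1, Finset.prod_mul_distrib, mul_right_comm, cc_prod,
    Finset.prod_boole]
  by_cases h2 : Cc S σ x
  · rw [if_pos h2, one_mul]
    by_cases h3 : ∀ i ∈ (univ : Finset (Fin K)), S8 (x i)
    · rw [if_pos h3, if_pos ⟨h2, fun i => h3 i (Finset.mem_univ i)⟩]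
    · rw [if_neg h3, if_neg fun h => h3 fun i _ => h.2 i]
  · rw [if_neg h2, zero_mul, if_neg fun h => h2 h.1]

theorem m8_prod {K : ℕ} (S : Finset (Fin K)) :
    ∏ i, mS S i / 2 = (∏ i, mS S i) / 2 ^ K := by
  rw [Finset.prod_div_distrib, Finset.prod_const, Finset.card_univ, Fintype.card_fin]

theorem cc8_lim (n : ℕ) (S : Finset (Fin (n + 1))) (σ : Equiv.Perm (Fin (n + 1))) :
    Tendsto (na (n + 1) fun x => if Cc S σ x ∧ ∀ i, S8 (x i) then (1 : ℝ) else 0) atTop
      (𝓝 ((∏ i, mS S i) / 2 ^ (Cp S).card / 2 ^ (n + 1))) := by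
  have h := cyl_lim (fun i => g8 S i) (fun i => mS S i / 2) (fun i p => by
    unfold g8
    split_ifs <;> norm_num) (fun i => by
    unfold mS
    split_ifs <;> norm_num) (fun i => mean_pr2 _ _ (g8_mean S i)) (Cp S)
    (fun z hz => (mem_Cp.1 hz).1) (ep σ)
    (fun z => by
      unfold ep
      split_ifs <;> norm_num)
  rw [m8_prod, div_right_comm] at h
  refine h.congr fun X => ?_
  congr 1
  funext x
  exact g8_prod S σ x

/-- **the average of the matchings with `s` split places, in the class** -/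
theorem match8_lim (n s : ℕ) :
    Tendsto (na (n + 1) fun x => ∑ S ∈ (univ : Finset (Fin (n + 1))).powersetCard s,
      ∑ σ ∈ Cf S, (if Cc S σ x ∧ ∀ i, S8 (x i) then (1 : ℝ) else 0)) atTop
      (𝓝 (Ps (n + 1) s / 2 ^ (n + 1))) := by
  have h1 : (na (n + 1) fun x => ∑ S ∈ (univ : Finset (Fin (n + 1))).powersetCard s,
      ∑ σ ∈ Cf S, (if Cc S σ x ∧ ∀ i, S8 (x i) then (1 : ℝ) else 0)) = fun X =>
      ∑ S ∈ (univ : Finset (Fin (n + 1))).powersetCard s, ∑ σ ∈ Cf S,
        na (n + 1) (fun x => if Cc S σ x ∧ ∀ i, S8 (x i) then (1 : ℝ) else 0) X := by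
    funext X
    unfold na
    rw [Finset.sum_comm, Finset.sum_div]
    refine Finset.sum_congr rfl fun S _ => ?_
    rw [Finset.sum_comm, Finset.sum_div]
  rw [h1]
  have h2 : Ps (n + 1) s / 2 ^ (n + 1) =
      ∑ S ∈ (univ : Finset (Fin (n + 1))).powersetCard s, ∑ σ ∈ Cf S,
        ((∏ i, mS S i) / 2 ^ (Cp S).card / 2 ^ (n + 1)) := by
    have h3 : ∀ S ∈ (univ : Finset (Fin (n + 1))).powersetCard s, ∑ σ ∈ Cf S,
        ((∏ i, mS S i) / 2 ^ (Cp S).card / 2 ^ (n + 1)) = (Iv s : ℝ) *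
        (1 / 2 ^ (n + 1 + s + ((n + 1).choose 2 - (n + 1 - s).choose 2)) / 2 ^ (n + 1)) := by
      intro S hS
      have h4 := (Finset.mem_powersetCard.1 hS).2
      rw [Finset.sum_const, card_Cf, h4, nsmul_eq_mul, prod_mS, h4]
      congr 2
      have h5 := card_Cp S
      rw [h4] at h5
      have h6 : (n + 1).choose 2 - (n + 1 - s).choose 2 = (Cp S).card := by omega
      rw [h6, pow_add (2 : ℝ) (n + 1 + s) (Cp S).card, div_div]
    rw [Finset.sum_congr rfl h3, Finset.sum_const, Finset.card_powersetCard, Finset.card_univ,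
      Fintype.card_fin, nsmul_eq_mul]
    unfold Ps
    push_cast
    ring
  rw [h2]
  exact tendsto_finsetSum _ fun S _ => tendsto_finsetSum _ fun σ _ => cc8_lim n S σ

theorem sum_cc8 {K : ℕ} {x : Fin K → ℕ} (hx : Om K 1 x) (s : ℕ) :
    ∑ S ∈ (univ : Finset (Fin K)).powersetCard s, ∑ σ ∈ Cf S,
      (if Cc S σ x ∧ ∀ i, S8 (x i) then (1 : ℝ) else 0) =
      if (Mt (Set.range x) ∧ (S0 x).card = s) ∧ ∀ i, S8 (x i) then 1 else 0 := by
  by_cases h : ∀ i, S8 (x i)
  · have h1 := sum_cc hx s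
    have h2 : ∑ S ∈ (univ : Finset (Fin K)).powersetCard s, ∑ σ ∈ Cf S,
        (if Cc S σ x ∧ ∀ i, S8 (x i) then (1 : ℝ) else 0) =
        ∑ S ∈ (univ : Finset (Fin K)).powersetCard s, ∑ σ ∈ Cf S,
        (if Cc S σ x then (1 : ℝ) else 0) := by
      refine Finset.sum_congr rfl fun S _ => Finset.sum_congr rfl fun σ _ => ?_
      by_cases h3 : Cc S σ x
      · rw [if_pos ⟨h3, h⟩, if_pos h3]
      · rw [if_neg fun h4 => h3 h4.1, if_neg h3]
    rw [h2, h1]
    by_cases h3 : Mt (Set.range x) ∧ (S0 x).card = s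
    · rw [if_pos h3, if_pos ⟨h3, h⟩]
    · rw [if_neg h3, if_neg fun h4 => h3 h4.1]
  · rw [if_neg fun h4 => h h4.2]
    refine Finset.sum_eq_zero fun S _ => Finset.sum_eq_zero fun σ _ => ?_
    rw [if_neg fun h4 => h h4.2]

/-- the numbers of the class -/
noncomputable def M8 (K X : ℕ) : Finset ℕ := (Ms K 1 X).filter fun m => ∀ p ∈ m.primeFactors, S8 p

theorem pf_all {K : ℕ} {x : Fin K → ℕ} (hx : Om K 1 x) :
    (∀ p ∈ (∏ i, x i).primeFactors, S8 p) ↔ ∀ i, S8 (x i) := by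
  rw [(img_pf hx).1]
  constructor
  · intro h i
    exact h _ (Finset.mem_image_of_mem x (Finset.mem_univ i))
  · intro h p hp
    obtain ⟨i, -, rfl⟩ := Finset.mem_image.1 hp
    exact h i

/-- **the share of the matchings in the class** -/
theorem match8 (n s : ℕ) :
    (∀ᶠ X : ℕ in atTop, 0 < (M8 (n + 1) X).card) ∧
    Tendsto (fun X : ℕ => (∑ m ∈ M8 (n + 1) X,
      (if Mt (m.primeFactors : Set ℕ) ∧ (m.primeFactors.filter Spl).card = s then (1 : ℝ) else 0)) /
        ((M8 (n + 1) X).card : ℝ)) atTop (𝓝 (Ps (n + 1) s)) := by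
  have h1 := restr_m n one_ne_zero (fun x => ∑ S ∈ (univ : Finset (Fin (n + 1))).powersetCard s,
    ∑ σ ∈ Cf S, (if Cc S σ x ∧ ∀ i, S8 (x i) then (1 : ℝ) else 0)) (Ps (n + 1) s / 2 ^ (n + 1))
    (∑ S ∈ (univ : Finset (Fin (n + 1))).powersetCard s, ∑ σ ∈ Cf S, 1) (fun x => by
      refine (Finset.abs_sum_le_sum_abs _ _).trans (Finset.sum_le_sum fun S _ => ?_)
      refine (Finset.abs_sum_le_sum_abs _ _).trans (Finset.sum_le_sum fun σ _ => ?_)
      split_ifs <;> norm_num)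
    (match8_lim n s) (fun m => if (Mt (m.primeFactors : Set ℕ) ∧
      (m.primeFactors.filter Spl).card = s) ∧ ∀ p ∈ m.primeFactors, S8 p then (1 : ℝ) else 0)
    (fun x hx => by
      rw [sum_cc8 hx s]
      have h1 : ((∏ i, x i).primeFactors.filter Spl).card = (S0 x).card := by
        unfold S0
        rw [(img_pf hx).1, Finset.filter_image, Finset.card_image_of_injective _ hx.2]
      refine ite_iff ?_
      rw [range_pf hx, h1, pf_all hx])
  have h2 := restr_m n one_ne_zero (fun x => ∏ i ∈ (univ : Finset (Fin (n + 1))),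
    (if S8 (x i) then (1 : ℝ) else 0)) (1 / 2 ^ (n + 1)) 1 (fun x => by
      rw [Finset.abs_prod]
      refine Finset.prod_le_one (fun i _ => abs_nonneg _) fun i _ => ?_
      split_ifs <;> norm_num)
    (by
      have h := lim_prod_gen (fun _ : Fin (n + 1) => fun p => if S8 p then (1 : ℝ) else 0)
        (fun _ => 1 / 2) (fun i p => by
          show |(if S8 p then (1 : ℝ) else 0)| ≤ 1
          split_ifs <;> norm_num) (fun i => by norm_num)
        (fun i => mean_pr2 _ _ s8_mean) univ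
      rw [Finset.prod_const, Finset.card_univ, Fintype.card_fin, div_pow, one_pow] at h
      exact h) (fun m => if ∀ p ∈ m.primeFactors, S8 p then (1 : ℝ) else 0)
    (fun x hx => by
      rw [Finset.prod_boole]
      exact ite_iff ((pf_all hx).trans
        ⟨fun h3 i _ => h3 i, fun h3 i => h3 i (Finset.mem_univ i)⟩))
  have hc : ∀ X, (∑ m ∈ Ms (n + 1) 1 X, (if ∀ p ∈ m.primeFactors, S8 p then (1 : ℝ) else 0)) =
      ((M8 (n + 1) X).card : ℝ) := by
    intro X
    rw [card_as_sum, M8, Finset.sum_filter]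
  have hn : ∀ X, (∑ m ∈ Ms (n + 1) 1 X, (if (Mt (m.primeFactors : Set ℕ) ∧
      (m.primeFactors.filter Spl).card = s) ∧ ∀ p ∈ m.primeFactors, S8 p then (1 : ℝ) else 0)) =
      ∑ m ∈ M8 (n + 1) X, (if Mt (m.primeFactors : Set ℕ) ∧
        (m.primeFactors.filter Spl).card = s then (1 : ℝ) else 0) := by
    intro X
    rw [M8, Finset.sum_filter]
    refine Finset.sum_congr rfl fun m _ => ?_
    by_cases h3 : ∀ p ∈ m.primeFactors, S8 p
    · rw [if_pos h3]
      by_cases h4 : Mt (m.primeFactors : Set ℕ) ∧ (m.primeFactors.filter Spl).card = s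
      · rw [if_pos h4, if_pos ⟨h4, h3⟩]
      · rw [if_neg h4, if_neg fun h5 => h4 h5.1]
    · rw [if_neg h3, if_neg fun h5 => h3 h5.2]
  have hpos : (0 : ℝ) < 1 / 2 ^ (n + 1) := by positivity
  refine ⟨?_, ?_⟩
  · filter_upwards [h2.2.eventually (lt_mem_nhds hpos), h2.1] with X hX hX2
    rw [hc] at hX
    have h3 : (0 : ℝ) < ((Ms (n + 1) 1 X).card : ℝ) := by exact_mod_cast hX2
    have h4 := (div_pos_iff_of_pos_right h3).1 hX
    exact_mod_cast h4
  · have h3 := h1.2.div h2.2 hpos.ne'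
    have e : Ps (n + 1) s / 2 ^ (n + 1) / (1 / 2 ^ (n + 1)) = Ps (n + 1) s := by
      field_simp
    rw [e] at h3
    refine h3.congr' ?_
    filter_upwards [h2.1] with X hX
    have h4 : ((Ms (n + 1) 1 X).card : ℝ) ≠ 0 := by
      have h5 : (0 : ℝ) < ((Ms (n + 1) 1 X).card : ℝ) := by exact_mod_cast hX
      exact h5.ne'
    rw [Pi.div_apply, div_div_div_cancel_right₀ h4, hn, hc]

end Pool.Agent.U687.J8
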