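import Pool.Agent.U687.J8.Match8
import Pool.Agent.U687.NO.Kind

/-!
# Averages of functions of the symbols over tuples of primes `1` modulo `8` (split) and `5` modulo `8` (inert)
-/

set_option autoImplicit false
set_option linter.unusedSectionVars false

open scoped Classical

namespace Pool.Agent.U687.J8

open Finset Filter Topology
open Pool.Agent.U687.Q2 (av av_of cf Ci Cs Ca mean_all CC wt PP PP_eq PP_uw En exists_en MM cor uw mu nu TT
  cor_zero_iff det_MM MM_symm lim2)
open Pool.Agent.U687.JT (nr2 n47 bad bad_spec)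
open Pool.Agent.U687.NO
open Pool.Agent.U120.MF (Spl)
open Pool.Agent.Results.MP_4a9ea6_nt.TwoPartTwistsX49 (Adm mat)

/-- the sign of the class -/
noncomputable def s8 (p : ℕ) : ℝ := sn (nr2 p 2) * sn (ty p)

theorem s8_abs (p : ℕ) : |s8 p| ≤ 1 := by
  unfold s8
  rw [abs_mul, sn_abs, sn_abs, mul_one]

theorem s8_eq {p : ℕ} (hp : p.Prime) (h4 : p % 4 = 1) :
    (1 + s8 p) / 2 = if S8 p then 1 else 0 := by
  have h1 := nr2_two hp h4
  unfold s8 S8
  by_cases h2 : Spl p
  · have e1 : ty p = 0 := if_pos h2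
    rw [e1, sn_zero, mul_one]
    rcases z2' (nr2 p 2) with h3 | h3
    · rw [h3, sn_zero, if_pos (Or.inl ⟨h1.1 h3, h2⟩)]
      norm_num
    · have h4 : ¬ p % 8 = 1 := fun h => by
        rw [h1.2 h] at h3
        exact absurd h3 zero_ne_one
      rw [h3, sn_one, if_neg]
      · norm_num
      · rintro (h5 | h5)
        · exact h4 h5.1
        · exact h5.2 h2
  · have e1 : ty p = 1 := if_neg h2
    rw [e1, sn_one]
    rcases z2' (nr2 p 2) with h3 | h3
    · have h5 := h1.1 h3
      rw [h3, sn_zero, if_neg]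
      · norm_num
      · rintro (h5 | h5)
        · exact h2 h5.2
        · omega
    · have h5 : ¬ p % 8 = 1 := fun h => by
        rw [h1.2 h] at h3
        exact absurd h3 zero_ne_one
      rw [h3, sn_one, if_pos (Or.inr ⟨by omega, h2⟩)]
      norm_num

/-- **the means of the monomials, the symbol of `2` included** -/
theorem mean_mo2 (A : Finset ℕ) (hA : ∀ r ∈ A, r.Prime ∧ (r % 4 = 1 ∨ r = 2)) (a b : Bool) {D : ℕ}
    (hD : D ≠ 0) : Tendsto (av Ca D (mo A a b)) atTop (𝓝 (me A a b)) := by
  have hDp := Nat.pos_of_ne_zero hD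
  -- inert primes
  have h1 : Tendsto (av Ci D (mo A a b)) atTop
      (𝓝 ((if A = ∅ then 1 else 0) * ((if a then -1 else 1) * (if b then -1 else 1)))) := by
    have h := av_of Ci D (fun l => fun r : A => nr2 l r)
      (fun u => (∏ r, sn (u r)) * (if a then -1 else 1) * (if b then -1 else 1)) (mo A a b)
      (by
        intro l _ hl _
        unfold mo
        rw [n47_inert hl.2, sn_one]
        have e1 : ty l = 1 := by
          unfold ty
          rw [if_neg hl.2]
        rw [e1, sn_one, ← Finset.prod_coe_sort A (fun r => sn (nr2 l r))]) (2 ^ A.card)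
      (by
        intro x
        have hq := quad_inert2 A hA D hDp (fun u => u = x)
          (fun l => ¬ l ∣ D ∧ (fun r : A => nr2 l r) = x) (by
            intro p _ hpN _ _
            exact ⟨fun h => ⟨(bad_spec hpN).2.2.2, h⟩, fun h => h.2⟩)
        have e1 : Nat.card {u : A → ZMod 2 // u = x} = 1 := by simp
        rw [e1, Nat.cast_one] at hq
        refine hq.congr fun X => ?_
        refine congrArg₂ (fun a b : ℕ => (a : ℝ) / (b : ℝ)) (cf _ _ fun l => ?_)
          (cf _ _ fun l => ?_)
        · unfold Ci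
          tauto
        · unfold Ci
          tauto)
    have e : (∑ u : A → ZMod 2, (∏ r, sn (u r)) * (if a then (-1 : ℝ) else 1) *
        (if b then -1 else 1)) / 2 ^ A.card =
        (if A = ∅ then 1 else 0) * ((if a then -1 else 1) * (if b then -1 else 1)) := by
      rw [← Finset.sum_mul, ← Finset.sum_mul, sum_prod_sn]
      by_cases h0 : A = ∅
      · rw [if_pos h0, h0, Finset.card_empty, pow_zero, div_one, mul_assoc]
      · rw [if_neg h0]
        simp
    rwa [e] at h
  -- split primes
  have h2 : Tendsto (av Cs D (mo A a b)) atTop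
      (𝓝 ((if A = ∅ then 1 else 0) * (if a then 0 else 1))) := by
    have h := av_of Cs D (fun l => ((fun r : A => nr2 l r), n47 l))
      (fun u => (∏ r, sn (u.1 r)) * (if a then sn u.2 else 1)) (mo A a b)
      (by
        intro l _ hl _
        unfold mo
        have e1 : ty l = 0 := by
          unfold ty
          rw [if_pos hl.2]
        rw [e1, sn_zero, ite_self, mul_one, ← Finset.prod_coe_sort A (fun r => sn (nr2 l r))])
      (2 ^ (A.card + 1))
      (by
        intro x
        have hq := quad_split2 A hA D hDp (fun u => u = x)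
          (fun l => ¬ l ∣ D ∧ ((fun r : A => nr2 l r), n47 l) = x) (by
            intro p _ hpN _ _
            exact ⟨fun h => ⟨(bad_spec hpN).2.2.2, h⟩, fun h => h.2⟩)
        have e1 : Nat.card {u : (A → ZMod 2) × ZMod 2 // u = x} = 1 := by simp
        rw [e1, Nat.cast_one] at hq
        refine hq.congr fun X => ?_
        refine congrArg₂ (fun a b : ℕ => (a : ℝ) / (b : ℝ)) (cf _ _ fun l => ?_)
          (cf _ _ fun l => ?_)
        · unfold Cs
          tauto
        · unfold Cs
          tauto)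
    have e : (∑ u : (A → ZMod 2) × ZMod 2, (∏ r, sn (u.1 r)) * (if a then sn u.2 else 1)) /
        2 ^ (A.card + 1) = (if A = ∅ then 1 else 0) * (if a then 0 else 1) := by
      rw [Fintype.sum_prod_type]
      have e3 : ∀ u : A → ZMod 2, ∑ q : ZMod 2, (∏ r, sn (u r)) * (if a then sn q else 1) =
          (∏ r, sn (u r)) * (if a then 0 else 2) := by
        intro u
        rw [← Finset.mul_sum, sum_zmod2, sn_zero, sn_one]
        cases a
        · norm_num
        · norm_num
      rw [Finset.sum_congr rfl fun u _ => e3 u, ← Finset.sum_mul, sum_prod_sn]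
      by_cases h0 : A = ∅
      · rw [if_pos h0, h0, Finset.card_empty]
        cases a
        · norm_num
        · norm_num
      · rw [if_neg h0]
        simp
    rwa [e] at h
  have h := mean_all h1 h2
  have e : ((if A = ∅ then (1 : ℝ) else 0) * ((if a then -1 else 1) * (if b then -1 else 1)) +
      (if A = ∅ then 1 else 0) * (if a then 0 else 1)) / 2 = me A a b := by
    unfold me
    split_ifs <;> norm_num
  rwa [e] at h

theorem mo_s8 {A : Finset ℕ} (h2 : 2 ∉ A) (a b : Bool) (p : ℕ) :
    mo A a b p * s8 p = mo (insert 2 A) a (!b) p := by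
  unfold mo s8
  rw [Finset.prod_insert h2]
  cases b
  · simp only [Bool.not_false, if_true, Bool.false_eq_true, if_false]
    ring
  · simp only [Bool.not_true, if_true, Bool.false_eq_true, if_false]
    have := sn_sq (ty p)
    linear_combination ((∏ r ∈ A, sn (nr2 p r)) * (if a = true then sn (n47 p) else 1) *
      sn (nr2 p 2)) * this

/-- the factor of a coordinate -/
noncomputable def gn {K : ℕ} (A : Fin K → Finset ℕ) (a b : Fin K → Bool) (B : Finset (Fin K)) (i : Fin K)
    (p : ℕ) : ℝ := mo (A i) (a i) (b i) p * (if i ∈ B then s8 p else 1)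

/-- its mean -/
noncomputable def mn {K : ℕ} (A : Fin K → Finset ℕ) (a b : Fin K → Bool) (B : Finset (Fin K))
    (i : Fin K) : ℝ := if i ∈ B then 0 else me (A i) (a i) (b i)

theorem gn_mean {K : ℕ} (A : Fin K → Finset ℕ) (a b : Fin K → Bool)
    (hA : ∀ i, ∀ r ∈ A i, r.Prime ∧ r % 4 = 1) (B : Finset (Fin K)) (i : Fin K) :
    Tendsto (av Ca 1 (gn A a b B i)) atTop (𝓝 (mn A a b B i)) := by
  by_cases hi : i ∈ B
  · have h2 : 2 ∉ A i := fun h => by
      have := (hA i 2 h).2
      omega
    have h := mean_mo2 (insert 2 (A i)) (fun r hr => by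
      rcases Finset.mem_insert.1 hr with h3 | h3
      · rw [h3]
        exact ⟨Nat.prime_two, Or.inr rfl⟩
      · exact ⟨(hA i r h3).1, Or.inl (hA i r h3).2⟩) (a i) (!(b i)) one_ne_zero
    rw [me_insert] at h
    have e : gn A a b B i = mo (insert 2 (A i)) (a i) (!(b i)) := by
      funext p
      unfold gn
      rw [if_pos hi, mo_s8 h2]
    have e2 : mn A a b B i = 0 := if_pos hi
    rw [e, e2]
    exact h
  · have h := mean_mo2 (A i) (fun r hr => ⟨(hA i r hr).1, Or.inl (hA i r hr).2⟩) (a i) (b i)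
      one_ne_zero
    have e : gn A a b B i = mo (A i) (a i) (b i) := by
      funext p
      unfold gn
      rw [if_neg hi, mul_one]
    have e2 : mn A a b B i = me (A i) (a i) (b i) := if_neg hi
    rw [e, e2]
    exact h

theorem gn_abs {K : ℕ} (A : Fin K → Finset ℕ) (a b : Fin K → Bool) (B : Finset (Fin K)) (i : Fin K)
    (p : ℕ) : |gn A a b B i p| ≤ 1 := by
  unfold gn
  rw [abs_mul, mo_abs, one_mul]
  split_ifs
  · exact s8_abs p
  · norm_num

theorem mn_abs {K : ℕ} (A : Fin K → Finset ℕ) (a b : Fin K → Bool) (B : Finset (Fin K)) (i : Fin K) :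
    |mn A a b B i| ≤ 1 := by
  unfold mn
  split_ifs
  · norm_num
  · exact me_abs _ _ _

/-- the averages of the pure functions with signs of the class -/
theorem na_pure8 (n : ℕ) (A : Fin (n + 1) → Finset ℕ) (a b : Fin (n + 1) → Bool)
    (e : Fin (n + 1) → Fin (n + 1) → Bool) (hA : ∀ i, ∀ r ∈ A i, r.Prime ∧ r % 4 = 1)
    (B : Finset (Fin (n + 1))) :
    Tendsto (na (n + 1) fun x => pu A a b e x * ∏ i ∈ B, s8 (x i)) atTop
      (𝓝 (if No e ∧ B = ∅ then ∏ i, me (A i) (a i) (b i) else 0)) := by
  set E : Finset (Fin (n + 1) × Fin (n + 1)) := univ.filter fun z => z.1 < z.2 ∧ e z.1 z.2 = true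
    with hE
  have hpu : (fun x : Fin (n + 1) → ℕ => pu A a b e x * ∏ i ∈ B, s8 (x i)) = fun x =>
      (∏ i, gn A a b B i (x i)) * ∏ z ∈ E, (1 : ℝ) * sn (nr2 (x z.1) (x z.2)) := by
    funext x
    unfold pu gn
    rw [Finset.prod_mul_distrib, Finset.prod_ite_mem, Finset.univ_inter]
    have h1 : ∏ i : Fin (n + 1), ∏ j, (if i < j ∧ e i j = true then sn (nr2 (x i) (x j)) else 1) =
        ∏ z ∈ E, (1 : ℝ) * sn (nr2 (x z.1) (x z.2)) := by
      rw [← Fintype.prod_prod_type' (fun i j : Fin (n + 1) =>
        if i < j ∧ e i j = true then sn (nr2 (x i) (x j)) else 1), hE, Finset.prod_filter]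
      refine Finset.prod_congr rfl fun z _ => ?_
      rw [one_mul]
    rw [h1]
    ring
  rw [hpu]
  by_cases hne : E.Nonempty
  · have h1 := lim_edges (fun i => gn A a b B i) (fun i p => gn_abs A a b B i p) E
      (fun z hz => (Finset.mem_filter.1 hz).2.1) hne (fun _ => 1) (fun _ => by norm_num)
    rw [if_neg]
    · exact h1
    · rintro ⟨h2, -⟩
      obtain ⟨z, hz⟩ := hne
      have h3 := (Finset.mem_filter.1 hz).2
      have h4 := h2 z.1 z.2 h3.1
      rw [h4] at h3
      exact Bool.false_ne_true h3.2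
  · have hE0 : E = ∅ := Finset.not_nonempty_iff_eq_empty.1 hne
    have hN : No e := by
      intro i j hij
      by_contra h2
      have h3 : e i j = true := by simpa using h2
      apply hne
      exact ⟨(i, j), Finset.mem_filter.2 ⟨Finset.mem_univ _, hij, h3⟩⟩
    have h1 := lim_prod_gen (fun i => gn A a b B i) (fun i => mn A a b B i)
      (fun i p => gn_abs A a b B i p) (fun i => mn_abs A a b B i)
      (fun i => mean_pr2 _ _ (gn_mean A a b hA B i)) univ
    rw [hE0]
    simp only [Finset.prod_empty, mul_one]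
    have h4 : (if No e ∧ B = ∅ then ∏ i, me (A i) (a i) (b i) else 0) = ∏ i, mn A a b B i := by
      by_cases hB : B = ∅
      · rw [if_pos ⟨hN, hB⟩]
        refine Finset.prod_congr rfl fun i _ => ?_
        unfold mn
        rw [hB, if_neg (Finset.notMem_empty i)]
      · rw [if_neg fun h => hB h.2]
        obtain ⟨i, hi⟩ := Finset.nonempty_iff_ne_empty.2 hB
        exact (Finset.prod_eq_zero (f := fun i => mn A a b B i) (Finset.mem_univ i) (if_pos hi)).symm
    rw [h4]
    exact h1

/-- the indicator of the class as a sum of signs -/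
theorem ind_sum {K : ℕ} (x : Fin K → ℕ) : ∏ i, ((1 + s8 (x i)) / 2) =
    ∑ B ∈ (univ : Finset (Fin K)).powerset, (1 / 2) ^ K * ∏ i ∈ B, s8 (x i) := by
  rw [Finset.prod_div_distrib, Finset.prod_const, Finset.card_univ, Fintype.card_fin,
    Finset.prod_one_add, Finset.sum_div]
  refine Finset.sum_congr rfl fun B _ => ?_
  rw [one_div, inv_pow]
  ring

/-- **the averages of functions of the symbols, restricted to the class** -/
theorem na_fun8 (n : ℕ) {W : Finset ℕ} (hW : ∀ r ∈ W, r.Prime ∧ r % 4 = 1)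
    (F : (Pl (n + 1) W → ZMod 2) → ℝ) :
    Tendsto (na (n + 1) fun x => F (bit W x) * ∏ i, ((1 + s8 (x i)) / 2)) atTop
      (𝓝 ((1 / 2) ^ (n + 1) * lf F)) := by
  have h1 : (na (n + 1) fun x => F (bit W x) * ∏ i, ((1 + s8 (x i)) / 2)) = fun X =>
      ∑ u : Pl (n + 1) W → ZMod 2, ∑ S ∈ (univ : Finset (Pl (n + 1) W)).powerset,
        ∑ B ∈ (univ : Finset (Fin (n + 1))).powerset, (1 / 2) ^ (n + 1) * co F u S *
          na (n + 1) (fun x => pu (pA S) (pa S) (pb S) (pe S) x * ∏ i ∈ B, s8 (x i)) X := by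
    funext X
    unfold na
    have h2 : ∑ x ∈ Ot (n + 1) X, F (bit W x) * ∏ i, ((1 + s8 (x i)) / 2) =
        ∑ u : Pl (n + 1) W → ZMod 2, ∑ S ∈ (univ : Finset (Pl (n + 1) W)).powerset,
        ∑ B ∈ (univ : Finset (Fin (n + 1))).powerset, (1 / 2) ^ (n + 1) * co F u S *
          ∑ x ∈ Ot (n + 1) X, (pu (pA S) (pa S) (pb S) (pe S) x * ∏ i ∈ B, s8 (x i)) := by
      have h3 : ∀ x ∈ Ot (n + 1) X, F (bit W x) * ∏ i, ((1 + s8 (x i)) / 2) =
          ∑ u : Pl (n + 1) W → ZMod 2, ∑ S ∈ (univ : Finset (Pl (n + 1) W)).powerset,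
          ∑ B ∈ (univ : Finset (Fin (n + 1))).powerset, (1 / 2) ^ (n + 1) * co F u S *
            (pu (pA S) (pa S) (pb S) (pe S) x * ∏ i ∈ B, s8 (x i)) := by
        intro x _
        rw [expand F x, ind_sum, Finset.sum_mul]
        refine Finset.sum_congr rfl fun u _ => ?_
        rw [Finset.sum_mul]
        refine Finset.sum_congr rfl fun S _ => ?_
        rw [Finset.mul_sum]
        refine Finset.sum_congr rfl fun B _ => ?_
        ring
      rw [Finset.sum_congr rfl h3, Finset.sum_comm]
      refine Finset.sum_congr rfl fun u _ => ?_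
      rw [Finset.sum_comm]
      refine Finset.sum_congr rfl fun S _ => ?_
      rw [Finset.sum_comm]
      refine Finset.sum_congr rfl fun B _ => ?_
      rw [Finset.mul_sum]
    rw [h2, Finset.sum_div]
    refine Finset.sum_congr rfl fun u _ => ?_
    rw [Finset.sum_div]
    refine Finset.sum_congr rfl fun S _ => ?_
    rw [Finset.sum_div]
    refine Finset.sum_congr rfl fun B _ => ?_
    rw [mul_div_assoc]
  rw [h1]
  have h4 : (1 / 2) ^ (n + 1) * lf F = ∑ u : Pl (n + 1) W → ZMod 2,
      ∑ S ∈ (univ : Finset (Pl (n + 1) W)).powerset,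
      ∑ B ∈ (univ : Finset (Fin (n + 1))).powerset, (1 / 2) ^ (n + 1) * co F u S *
        (if No (pe S) ∧ B = ∅ then ∏ i, me (pA S i) (pa S i) (pb S i) else 0) := by
    unfold lf
    rw [Finset.mul_sum]
    refine Finset.sum_congr rfl fun u _ => ?_
    rw [Finset.mul_sum]
    refine Finset.sum_congr rfl fun S _ => ?_
    rw [Finset.sum_eq_single ∅]
    · unfold pl
      by_cases h5 : No (pe S)
      · rw [if_pos h5, if_pos ⟨h5, rfl⟩, mul_assoc]
      · rw [if_neg h5, if_neg fun h => h5 h.1, mul_assoc]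
    · intro B _ hB
      rw [if_neg fun h => hB h.2, mul_zero]
    · intro h
      exact absurd (Finset.empty_mem_powerset _) h
  rw [h4]
  exact tendsto_finsetSum _ fun u _ => tendsto_finsetSum _ fun S _ => tendsto_finsetSum _ fun B _ =>
    Tendsto.const_mul _ (na_pure8 n (pA S) (pa S) (pb S) (pe S)
      (fun i r hr => hW r (pA_sub S i hr)) B)

end Pool.Agent.U687.J8
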