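import Pool.Agent.U687.J8.Surj

/-!
# The joint law of the symbol of `2` and of the quartic symbols of the primes `1` modulo `4`
-/

set_option autoImplicit false
set_option linter.unusedSectionVars false
set_option linter.style.haveILetI false

open scoped Classical

namespace Pool.Agent.U687.J8

open Finset Filter Topology NumberField
open Pool.Agent.Y692.QS (Ei w)
open Q283.TW (ng ng_mul gal_sqrt dens_of)
open Q283.TC (Dat)
open Pool.Agent.W401.Cheb (HasFrob M pr mem_pr M_congr)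
open Pool.Agent.U687.JT

theorem bad_pos2 {R : Finset ℕ} {N1 : ℕ} (hR : ∀ r ∈ R, r.Prime ∧ (r % 4 = 1 ∨ r = 2)) (h : 0 < N1) :
    0 < bad R N1 := by
  unfold bad
  have : 0 < ∏ r ∈ R, r := Finset.prod_pos fun r hr => (hR r hr).1.pos
  positivity

section
variable {L : Type} [Field L] [NumberField L] [IsGalois ℚ L] {P : Finset Ei} {R : Finset ℕ}
  (E3 : Dat L P) (E : QDat L R) (hR : ∀ r ∈ R, r ≠ 0)

variable (hR2 : ∀ r ∈ R, r.Prime ∧ (r % 4 = 1 ∨ r = 2))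

include E3 hR2 in
theorem sjΘ0 : Function.Surjective (Θ0 E hR) := by
  intro x
  obtain ⟨g, hg⟩ := sj0 E3 E hR hR2 x
  exact ⟨⟨g.1, g.2.2⟩, hg⟩

include E3 hR2 in
theorem sjΘ1 : Function.Surjective (Θ1 E hR) := by
  intro x
  obtain ⟨g, hg⟩ := sj1 E3 E hR hR2 x
  exact ⟨⟨g.1, g.2.1.2, g.2.2⟩, hg⟩

end

section
variable (R : Finset ℕ) (hR : ∀ r ∈ R, r.Prime ∧ (r % 4 = 1 ∨ r = 2)) (N1 : ℕ) (hN1 : 0 < N1)

include hR hN1

/-- **inert primes** -/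
theorem quad_inert2 (U : (R → ZMod 2) → Prop) (G : ℕ → Prop)
    (hG : ∀ (p : ℕ) [Fact p.Prime], ¬ p ∣ bad R N1 → p % 4 = 1 → ¬ IsSquare (-7 : ZMod p) →
      (U (fun r : R => nr2 p r) ↔ G p)) :
    Tendsto (fun X : ℕ =>
      (((Icc 1 X).filter fun l => l.Prime ∧ l % 4 = 1 ∧ ¬ IsSquare (-7 : ZMod l) ∧ G l).card : ℝ) /
        (((Icc 1 X).filter fun l => l.Prime ∧ l % 4 = 1 ∧ ¬ IsSquare (-7 : ZMod l)).card : ℝ)) atTop
      (𝓝 ((Nat.card {u : R → ZMod 2 // U u} : ℝ) / 2 ^ R.card)) := by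
  have hR0 : ∀ r ∈ R, r ≠ 0 := fun r hr => (hR r hr).1.ne_zero
  obtain ⟨L, hL, hN, hGal, ⟨E3, E⟩⟩ := exists_dat ∅ (by simp) R
  have hK : ∀ (p : ℕ) [Fact p.Prime], ¬ p ∣ bad R N1 →
      ∀ (φ : 𝓞 L →+* AlgebraicClosure (ZMod p)) (g : Gal(L/ℚ)), HasFrob p φ g →
        ((p % 4 = 1 ∧ ¬ IsSquare (-7 : ZMod p)) ↔ ∃ _ : g ∈ K0 E, ng g (E.θ ^ 2) = 1) := by
    intro p hp hpN φ g hφ
    obtain ⟨h2, h7, -, -⟩ := bad_spec hpN
    constructor
    · rintro ⟨h4, h5⟩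
      refine ⟨(E.frob_I hφ h2).2 h4, ?_⟩
      unfold ng
      rw [if_neg fun h => h5 ((E.frob_7 hφ h2 h7).1 h)]
    · rintro ⟨hg, hq'⟩
      refine ⟨(E.frob_I hφ h2).1 hg, ?_⟩
      rw [← E.frob_7 hφ h2 h7]
      intro h
      unfold ng at hq'
      rw [if_pos h] at hq'
      exact zero_ne_one hq'
  have hs := sjΘ0 E3 E hR0 hR
  have d1 := dens_gen (K0 E) (A := (R → ZMod 2) × ZMod 2) (Θ0 E hR0) hs
    (fun a => a.2 = 1 ∧ U a.1) (fun p => p % 4 = 1 ∧ ¬ IsSquare (-7 : ZMod p) ∧ G p) (bad R N1)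
    (bad_pos2 hR hN1) (by
      intro p hp hpN φ g hφ
      obtain ⟨h2, h7, hr, -⟩ := bad_spec hpN
      have hk := hK p hpN φ g hφ
      have e : (fun r : R => ng g (E.s r)) = fun r : R => nr2 p r := by
        funext r
        exact E.frob_s hφ h2 r.2 (hr r r.2)
      constructor
      · rintro ⟨h4, h5, h6⟩
        obtain ⟨hg, hq⟩ := hk.1 ⟨h4, h5⟩
        refine ⟨hg, hq, ?_⟩
        show U (fun r : R => ng g (E.s r))
        rw [e]
        exact (hG p hpN h4 h5).2 h6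
      · rintro ⟨hg, hq, hu⟩
        obtain ⟨h4, h5⟩ := hk.2 ⟨hg, hq⟩
        refine ⟨h4, h5, (hG p hpN h4 h5).1 ?_⟩
        rw [← e]
        exact hu)
  have d0 := dens_gen (K0 E) (A := (R → ZMod 2) × ZMod 2) (Θ0 E hR0) hs
    (fun a => a.2 = 1) (fun p => p % 4 = 1 ∧ ¬ IsSquare (-7 : ZMod p)) (bad R N1)
    (bad_pos2 hR hN1) (fun p _ hpN φ g hφ => hK p hpN φ g hφ)
  rw [card_fst] at d1
  rw [card_fst1] at d0
  have hH : 0 < Nat.card (K0 E) := Nat.card_pos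
  have hGa : 0 < Nat.card Gal(L/ℚ) := Nat.card_pos
  have hA : 0 < Nat.card ((R → ZMod 2) × ZMod 2) := Nat.card_pos
  have h := ratio_lim (by positivity) d1 d0
  have e : (Nat.card (K0 E) : ℝ) / (Nat.card Gal(L/ℚ) : ℝ) *
      ((Nat.card {u : R → ZMod 2 // U u} : ℝ) / Nat.card ((R → ZMod 2) × ZMod 2)) /
      ((Nat.card (K0 E) : ℝ) / (Nat.card Gal(L/ℚ) : ℝ) *
      (((2 ^ R.card : ℕ) : ℝ) / Nat.card ((R → ZMod 2) × ZMod 2))) =
      (Nat.card {u : R → ZMod 2 // U u} : ℝ) / 2 ^ R.card := by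
    push_cast
    field_simp
  rw [e] at h
  convert h

/-- **split primes** -/
theorem quad_split2 (U : (R → ZMod 2) × ZMod 2 → Prop) (G : ℕ → Prop)
    (hG : ∀ (p : ℕ) [Fact p.Prime], ¬ p ∣ bad R N1 → p % 4 = 1 → IsSquare (-7 : ZMod p) →
      (U (fun r : R => nr2 p r, n47 p) ↔ G p)) :
    Tendsto (fun X : ℕ =>
      (((Icc 1 X).filter fun l => l.Prime ∧ l % 4 = 1 ∧ IsSquare (-7 : ZMod l) ∧ G l).card : ℝ) /
        (((Icc 1 X).filter fun l => l.Prime ∧ l % 4 = 1 ∧ IsSquare (-7 : ZMod l)).card : ℝ)) atTop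
      (𝓝 ((Nat.card {u : (R → ZMod 2) × ZMod 2 // U u} : ℝ) / 2 ^ (R.card + 1))) := by
  have hR0 : ∀ r ∈ R, r ≠ 0 := fun r hr => (hR r hr).1.ne_zero
  obtain ⟨L, hL, hN, hGal, ⟨E3, E⟩⟩ := exists_dat ∅ (by simp) R
  have hs := sjΘ1 E3 E hR0 hR
  have d1 := dens_gen (K1 E) (A := (R → ZMod 2) × ZMod 2) (Θ1 E hR0) hs
    U (fun p => p % 4 = 1 ∧ IsSquare (-7 : ZMod p) ∧ G p) (bad R N1)
    (bad_pos2 hR hN1) (by
      intro p hp hpN φ g hφ
      obtain ⟨h2, h7, hr, -⟩ := bad_spec hpN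
      have e : (fun r : R => ng g (E.s r)) = fun r : R => nr2 p r := by
        funext r
        exact E.frob_s hφ h2 r.2 (hr r r.2)
      constructor
      · rintro ⟨h4, h5, h6⟩
        have hg7 := (E.frob_7 hφ h2 h7).2 h5
        refine ⟨⟨(E.frob_I hφ h2).2 h4, hg7⟩, ?_⟩
        show U (fun r : R => ng g (E.s r), ng g E.θ)
        rw [e, E.frob_n47 hφ h2 h7 h4 hg7]
        exact (hG p hpN h4 h5).2 h6
      · rintro ⟨hg, hu⟩
        have h4 := (E.frob_I hφ h2).1 hg.1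
        have h5 := (E.frob_7 hφ h2 h7).1 hg.2
        refine ⟨h4, h5, (hG p hpN h4 h5).1 ?_⟩
        rw [← e, ← E.frob_n47 hφ h2 h7 h4 hg.2]
        exact hu)
  have d0 := dens_gen (K1 E) (A := (R → ZMod 2) × ZMod 2) (Θ1 E hR0) hs
    (fun _ => True) (fun p => p % 4 = 1 ∧ IsSquare (-7 : ZMod p)) (bad R N1)
    (bad_pos2 hR hN1) (by
      intro p hp hpN φ g hφ
      obtain ⟨h2, h7, -, -⟩ := bad_spec hpN
      constructor
      · rintro ⟨h4, h5⟩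
        exact ⟨⟨(E.frob_I hφ h2).2 h4, (E.frob_7 hφ h2 h7).2 h5⟩, trivial⟩
      · rintro ⟨hg, -⟩
        exact ⟨(E.frob_I hφ h2).1 hg.1, (E.frob_7 hφ h2 h7).1 hg.2⟩)
  have c0 : Nat.card {a : (R → ZMod 2) × ZMod 2 // True} = 2 ^ (R.card + 1) := by
    have e1 : Nat.card ((R → ZMod 2) × ZMod 2) = 2 ^ (R.card + 1) := by
      rw [Nat.card_prod, Nat.card_fun]
      simp [pow_succ]
    rw [← e1]
    exact Nat.card_congr (Equiv.subtypeUnivEquiv fun _ => trivial)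
  rw [c0] at d0
  have hH : 0 < Nat.card (K1 E) := Nat.card_pos
  have hGa : 0 < Nat.card Gal(L/ℚ) := Nat.card_pos
  have hA : 0 < Nat.card ((R → ZMod 2) × ZMod 2) := Nat.card_pos
  have h := ratio_lim (by positivity) d1 d0
  have e : (Nat.card (K1 E) : ℝ) / (Nat.card Gal(L/ℚ) : ℝ) *
      ((Nat.card {u : (R → ZMod 2) × ZMod 2 // U u} : ℝ) / Nat.card ((R → ZMod 2) × ZMod 2)) /
      ((Nat.card (K1 E) : ℝ) / (Nat.card Gal(L/ℚ) : ℝ) *
      (((2 ^ (R.card + 1) : ℕ) : ℝ) / Nat.card ((R → ZMod 2) × ZMod 2))) =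
      (Nat.card {u : (R → ZMod 2) × ZMod 2 // U u} : ℝ) / 2 ^ (R.card + 1) := by
    push_cast
    field_simp
  rw [e] at h
  convert h

end

end Pool.Agent.U687.J8
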