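import Pool.Agent.U687.JT.Quad

/-!
# Independence of the square root of `2` and of the fourth root of `-7`
-/

set_option autoImplicit false
set_option linter.unusedSectionVars false
set_option linter.style.haveILetI false

open scoped Classical

namespace Pool.Agent.U687.J8

open NumberField Pool.Agent.W401.Cheb Finset
open Q283.TW (frob_sqrt gal_sqrt ng ng_mul mul_pm)
open Q283.TC (Dat HH mem_HH frob_z)
open Pool.Agent.Y692.QS (Ei)
open Pool.Agent.Y715.T.RecG (Pq)
open Pool.Agent.U687.JT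

/-- **Primes with given symbols**, `1` or `29` modulo `56`. -/
theorem exists_prime_c (c : ℕ) (hc : c = 1 ∨ c = 29) (R : Finset ℕ)
    (hR : ∀ r ∈ R, r.Prime ∧ r ≠ 2 ∧ r ≠ 7)
    (ε : ℕ → Prop) (B : ℕ) : ∃ p, B < p ∧ p.Prime ∧ p % 56 = c ∧
      ∀ r ∈ R, (IsSquare (r : ZMod p) ↔ ε r) := by
  classical
  have hex : ∀ r : ℕ, ∃ a : ℕ, (r ∈ R → (IsSquare (a : ZMod r) ↔ ε r) ∧ Nat.Coprime a r) := by
    intro r
    by_cases hr : r ∈ R
    · by_cases he : ε r
      · exact ⟨1, fun _ => ⟨⟨fun _ => he, fun _ => by simp⟩, Nat.coprime_one_left r⟩⟩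
      · obtain ⟨a, ha⟩ := Q283.TW.exists_nonres r (hR r hr).1 (hR r hr).2.1
        refine ⟨a, fun _ => ⟨⟨fun h => absurd h ha, fun h => absurd h he⟩, ?_⟩⟩
        rw [Nat.coprime_comm, (hR r hr).1.coprime_iff_not_dvd]
        intro h
        apply ha
        rw [(ZMod.natCast_eq_zero_iff a r).2 h]
        exact ⟨0, by simp⟩
    · exact ⟨0, fun h => absurd h hr⟩
  choose a ha using hex
  have h56 : 56 ∉ R := by
    intro h
    have := (hR 56 h).1
    norm_num at this
  set b : ℕ → ℕ := fun r => if r = 56 then c else a r with hb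
  have hpp : Set.Pairwise (↑(insert 56 R) : Set ℕ) (Function.onFun Nat.Coprime (fun r : ℕ => r)) := by
    intro x hx y hy hxy
    simp only [Finset.coe_insert, Set.mem_insert_iff, Finset.mem_coe] at hx hy
    show Nat.Coprime x y
    have h561 : ∀ r ∈ R, Nat.Coprime 56 r := by
      intro r hr
      obtain ⟨h1, h2, h3⟩ := hR r hr
      rw [Nat.coprime_comm, h1.coprime_iff_not_dvd]
      intro h
      have h4 : r ∣ 2 ^ 3 * 7 := by norm_num; exact h
      rcases (Nat.Prime.dvd_mul h1).1 h4 with h5 | h5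
      · exact h2 ((Nat.prime_dvd_prime_iff_eq h1 Nat.prime_two).1 (h1.dvd_of_dvd_pow h5))
      · exact h3 ((Nat.prime_dvd_prime_iff_eq h1 (by norm_num)).1 h5)
    rcases hx with rfl | hx <;> rcases hy with rfl | hy
    · exact absurd rfl hxy
    · exact h561 y hy
    · exact (h561 x hx).symm
    · exact (Nat.coprime_primes (hR x hx).1 (hR y hy).1).2 hxy
  have hne : ∀ i ∈ insert 56 R, (fun r : ℕ => r) i ≠ 0 := by
    intro i hi
    rw [Finset.mem_insert] at hi
    rcases hi with rfl | hi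
    · norm_num
    · exact (hR i hi).1.ne_zero
  obtain ⟨k, hk⟩ := Nat.chineseRemainderOfFinset b (fun r => r) (insert 56 R) hne hpp
  set M := 56 * ∏ r ∈ R, r with hM
  have hM0 : M ≠ 0 := Nat.mul_ne_zero (by norm_num)
    (Finset.prod_ne_zero_iff.2 fun r hr => (hR r hr).1.ne_zero)
  have hk56 : k ≡ c [MOD 56] := by
    have := hk 56 (Finset.mem_insert_self _ _)
    simpa [hb] using this
  have hkr : ∀ r ∈ R, k ≡ a r [MOD r] := by
    intro r hr
    have h1 := hk r (Finset.mem_insert_of_mem hr)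
    have h2 : r ≠ 56 := by rintro rfl; exact h56 hr
    simpa [hb, h2] using h1
  have hkM : Nat.Coprime k M := by
    rw [hM]
    apply Nat.Coprime.mul_right
    · have h1 : Nat.gcd k 56 = Nat.gcd c 56 := hk56.gcd_eq
      show Nat.gcd k 56 = 1
      rw [h1]; rcases hc with rfl | rfl <;> norm_num
    · apply Nat.Coprime.prod_right
      intro r hr
      show Nat.gcd k r = 1
      rw [(hkr r hr).gcd_eq]
      exact (ha r hr).2
  obtain ⟨p, hpB, hp, hpk⟩ := Nat.forall_exists_prime_gt_and_modEq (max B (M + 7)) hM0 hkM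
  have hpB1 : B < p := lt_of_le_of_lt (le_max_left _ _) hpB
  have hpM : M + 7 < p := lt_of_le_of_lt (le_max_right _ _) hpB
  have hp56 : p ≡ c [MOD 56] := (hpk.of_dvd ⟨∏ r ∈ R, r, hM⟩).trans hk56
  haveI : Fact p.Prime := ⟨hp⟩
  refine ⟨p, hpB1, hp, ?_, ?_⟩
  · have := hp56
    unfold Nat.ModEq at this
    rcases hc with rfl | rfl <;> omega
  · intro r hr
    haveI : Fact r.Prime := ⟨(hR r hr).1⟩
    have hpr : p ≡ a r [MOD r] :=
      (hpk.of_dvd (((Finset.dvd_prod_of_mem (fun r => r) hr)).mul_left 56)).trans (hkr r hr)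
    have hp4 : p % 4 = 1 := by
      have := hp56
      unfold Nat.ModEq at this
      rcases hc with rfl | rfl <;> omega
    rw [ZMod.exists_sq_eq_prime_iff_of_mod_four_eq_one hp4 (hR r hr).2.1]
    have h1 : (p : ZMod r) = (a r : ZMod r) := (ZMod.natCast_eq_natCast_iff _ _ _).2 hpr
    rw [h1]
    exact (ha r hr).1

/-- primes with given symbols, `1` modulo `12`, for which `-7` is a square -/
theorem exists_prime_2 (R : Finset ℕ) (hR : ∀ r ∈ R, r.Prime ∧ (r % 4 = 1 ∨ r = 2)) (ε : ℕ → Prop)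
    (B : ℕ) :
    ∃ p, B < p ∧ p.Prime ∧ p % 4 = 1 ∧ p % 3 = 1 ∧ IsSquare (-7 : ZMod p) ∧
      ∀ r ∈ R, (IsSquare (r : ZMod p) ↔ ε r) := by
  classical
  obtain ⟨c, hc, hcε⟩ : ∃ c : ℕ, (c = 1 ∨ c = 29) ∧ (c = 1 ↔ ε 2) := by
    by_cases h : ε 2
    · exact ⟨1, Or.inl rfl, ⟨fun _ => h, fun _ => rfl⟩⟩
    · exact ⟨29, Or.inr rfl, ⟨fun h1 => absurd h1 (by norm_num), fun h1 => absurd h1 h⟩⟩
  have h3R : 3 ∉ R.erase 2 := by
    intro h
    rcases (hR 3 (Finset.mem_of_mem_erase h)).2 with h1 | h1 <;> norm_num at h1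
  obtain ⟨p, h1, h2, h3, h4⟩ := exists_prime_c c hc (insert 3 (R.erase 2)) (by
    intro r hr
    rcases Finset.mem_insert.1 hr with rfl | hr
    · exact ⟨Nat.prime_three, by norm_num, by norm_num⟩
    · obtain ⟨h1, h2⟩ := hR r (Finset.mem_of_mem_erase hr)
      refine ⟨h1, Finset.ne_of_mem_erase hr, ?_⟩
      rintro rfl
      rcases h2 with h2 | h2 <;> norm_num at h2) (fun r => if r = 3 then True else ε r) (max B 7)
  have hB : B < p := lt_of_le_of_lt (le_max_left _ _) h1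
  have h7 : 7 < p := lt_of_le_of_lt (le_max_right _ _) h1
  haveI : Fact p.Prime := ⟨h2⟩
  have hp4 : p % 4 = 1 := by rcases hc with rfl | rfl <;> omega
  refine ⟨p, hB, h2, hp4, ?_, ?_, ?_⟩
  · have h5 := (h4 3 (Finset.mem_insert_self _ _)).2 (by rw [if_pos rfl]; trivial)
    haveI : Fact (Nat.Prime 3) := ⟨Nat.prime_three⟩
    rw [ZMod.exists_sq_eq_prime_iff_of_mod_four_eq_one hp4 (by norm_num)] at h5
    have h6 : p % 3 = 0 ∨ p % 3 = 1 ∨ p % 3 = 2 := by omega
    rcases h6 with h6 | h6 | h6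
    · exfalso
      have := (Nat.prime_dvd_prime_iff_eq Nat.prime_three h2).1 (Nat.dvd_of_mod_eq_zero h6)
      omega
    · exact h6
    · exfalso
      have h8 : ((p : ℕ) : ZMod 3) = 2 := by
        have : ((p : ℕ) : ZMod 3) = ((2 : ℕ) : ZMod 3) := by
          rw [ZMod.natCast_eq_natCast_iff]
          exact h6
        rw [this]
        rfl
      rw [h8] at h5
      obtain ⟨y, hy⟩ := h5
      exact two_nsq y hy
  · rw [Q283.TW.neg7_iff p (by omega) (by omega)]
    rcases hc with rfl | rfl <;> omega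
  · intro r hr
    by_cases hr2 : r = 2
    · subst hr2
      have e : ((2 : ℕ) : ZMod p) = 2 := by norm_num
      rw [e, ZMod.exists_sq_eq_two_iff (by omega), ← hcε]
      rcases hc with rfl | rfl <;> omega
    · have h5 := h4 r (Finset.mem_insert_of_mem (Finset.mem_erase.2 ⟨hr2, hr⟩))
      have h6 : r ≠ 3 := by
        rintro rfl
        exact h3R (Finset.mem_erase.2 ⟨hr2, hr⟩)
      rw [if_neg h6] at h5
      exact h5

section
variable {L : Type} [Field L] [NumberField L] [IsGalois ℚ L] {P : Finset Ei} {R : Finset ℕ}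
  (E3 : Dat L P) (E : QDat L R)

variable (hR : ∀ r ∈ R, r ≠ 0) (hR2 : ∀ r ∈ R, r.Prime ∧ (r % 4 = 1 ∨ r = 2))

include hR2 in
theorem sj0 : Function.Surjective (Φ0 E3 E hR) := by
  classical
  obtain ⟨D₁, hD₁, htor⟩ := torsor L
  -- the bound
  set B := D₁ + 7 + ∏ r ∈ R, r with hB
  have hprod : 0 < ∏ r ∈ R, r := Finset.prod_pos fun r hr => Nat.pos_of_ne_zero (hR r hr)
  have hle : ∀ r ∈ R, r ≤ ∏ r ∈ R, r := fun r hr =>
    Nat.le_of_dvd hprod (Finset.dvd_prod_of_mem (fun r => r) hr)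
  have hfr : ∀ p : ℕ, B < p → p.Prime → p % 4 = 1 → p % 3 = 1 → ∃ g : H0 E3 E,
      (∀ r : R, ng g.1 (E.s r) = nr2 p r) ∧
      (IsSquare (-7 : ZMod p) → ng g.1 (E.θ ^ 2) = 0) ∧
      (¬ IsSquare (-7 : ZMod p) → ng g.1 (E.θ ^ 2) = 1) := by
    intro p hBp hp h4 h3
    haveI : Fact p.Prime := ⟨hp⟩
    have hpD : ¬ p ∣ D₁ := fun h => by
      have := Nat.le_of_dvd hD₁ h
      omega
    obtain ⟨φ, g, hφ⟩ := exists_fr (L := L) p (htor p hpD)
    have h2 : p ≠ 2 := by omega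
    have h30 : p ≠ 3 := by omega
    have h7 : p ≠ 7 := by omega
    refine ⟨⟨g, (frob_z E3.hZ hφ h30).2 h3, (E.frob_I hφ h2).2 h4⟩, ?_, ?_, ?_⟩
    · intro r
      refine E.frob_s hφ h2 r.2 fun hd => ?_
      have h5 := Nat.le_of_dvd (Nat.pos_of_ne_zero (hR r r.2)) hd
      have h6 := hle r r.2
      omega
    · intro h
      unfold ng
      rw [if_pos ((E.frob_7 hφ h2 h7).2 h)]
    · intro h
      unfold ng
      rw [if_neg (fun h' => h ((E.frob_7 hφ h2 h7).1 h'))]
  have hall : ∀ u : R → ZMod 2, ∃ g : H0 E3 E, Φ0 E3 E hR g = Multiplicative.ofAdd (u, 0) := by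
    intro u
    obtain ⟨p, h1, h2, h3, h4, h5, h6⟩ := exists_prime_2 R hR2
      (fun r => ∀ h : r ∈ R, u ⟨r, h⟩ = 0) B
    obtain ⟨g, g1, g2, -⟩ := hfr p h1 h2 h3 h4
    refine ⟨g, ?_⟩
    show Multiplicative.ofAdd _ = _
    congr 1
    refine Prod.ext ?_ (g2 h5)
    funext r
    show ng g.1 (E.s r) = u r
    rw [g1 r]
    unfold nr2
    have h7 := h6 r r.2
    by_cases hr : u r = 0
    · rw [if_pos (h7.2 fun h => hr), hr]
    · rw [if_neg fun h => hr (h7.1 h r.2)]
      have : ∀ x : ZMod 2, x ≠ 0 → 1 = x := by decide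
      exact this _ hr
  obtain ⟨p, h1, h2, h3⟩ := exists_prime_b B
  haveI : Fact p.Prime := ⟨h2⟩
  obtain ⟨k, -, -, k3⟩ := hfr p h1 h2 (by omega) (by omega)
  have hk : ng k.1 (E.θ ^ 2) = 1 := by
    apply k3
    rw [Q283.TW.neg7_iff p (by omega) (by omega)]
    omega
  intro x
  set y := Multiplicative.toAdd x with hy
  have hx : x = Multiplicative.ofAdd y := rfl
  have h01 : y.2 = 0 ∨ y.2 = 1 := by
    have : ∀ z : ZMod 2, z = 0 ∨ z = 1 := by decide
    exact this _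
  rcases h01 with h0 | h0
  · obtain ⟨g, hg⟩ := hall y.1
    refine ⟨g, ?_⟩
    rw [hg, hx]
    congr 1
    exact Prod.ext rfl h0.symm
  · obtain ⟨g, hg⟩ := hall (y.1 - fun r : R => ng k.1 (E.s r))
    refine ⟨g * k, ?_⟩
    rw [map_mul, hg, hx]
    show Multiplicative.ofAdd _ * Multiplicative.ofAdd _ = _
    rw [← ofAdd_add]
    congr 1
    refine Prod.ext ?_ ?_
    · show y.1 - _ + _ = y.1
      rw [sub_add_cancel]
    · show 0 + ng k.1 (E.θ ^ 2) = y.2
      rw [hk, h0, zero_add]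

include hR2 in
theorem sj1 : Function.Surjective (Φ1 E3 E hR) := by
  classical
  have h0 := sj0 E3 E hR hR2
  have hn : ∀ g : Gal(L/ℚ), ng g (E.θ ^ 2) = 0 → g (E.θ ^ 2) = E.θ ^ 2 := by
    intro g hg
    by_contra hc
    unfold ng at hg
    rw [if_neg hc] at hg
    exact one_ne_zero hg
  have hn1 : ∀ g : Gal(L/ℚ), ng g (E.θ ^ 2) = 1 → g (E.θ ^ 2) = -E.θ ^ 2 := by
    intro g hg
    rcases gal_sqrt g E.hθ with h | h
    · unfold ng at hg
      rw [if_pos h] at hg
      exact absurd hg zero_ne_one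
    · exact h
  obtain ⟨k, hk⟩ := h0 (Multiplicative.ofAdd (0, 1))
  have hk' := congrArg Multiplicative.toAdd hk
  have hk1 : ∀ r : R, ng k.1 (E.s r) = 0 := fun r => congrFun (congrArg Prod.fst hk') r
  have hk2 : ng k.1 (E.θ ^ 2) = 1 := congrArg Prod.snd hk'
  have hk3 := hn1 k.1 hk2
  have hkk : (k.1 * k.1) (E.θ ^ 2) = E.θ ^ 2 := by
    show k.1 (k.1 _) = _
    rw [hk3, map_neg, hk3, neg_neg]
  set κ : H1 E3 E := ⟨k.1 * k.1, (k * k).2, hkk⟩ with hκ
  have hκθ : ng κ.1 E.θ = 1 := by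
    have h1 : (k.1 * k.1) E.θ = -E.θ := E.sq_theta k.1 k.2.2 hk3
    unfold ng
    rw [if_neg]
    show ¬ (k.1 * k.1) E.θ = E.θ
    rw [h1]
    intro h
    apply E.theta0
    have : (2 : L) * E.θ = 0 := by linear_combination -h
    rcases mul_eq_zero.1 this with h5 | h5
    · norm_num at h5
    · exact h5
  have hκs : ∀ r : R, ng κ.1 (E.s r) = 0 := by
    intro r
    have h1 : k.1 (E.s r) = E.s r := by
      by_contra hc
      have h2 := hk1 r
      unfold ng at h2
      rw [if_neg hc] at h2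
      exact one_ne_zero h2
    have h3 : (k.1 * k.1) (E.s r) = E.s r := by
      show k.1 (k.1 _) = _
      rw [h1, h1]
    unfold ng
    rw [if_pos h3]
  have hΦκ : Φ1 E3 E hR κ = Multiplicative.ofAdd (0, 1) := by
    show Multiplicative.ofAdd _ = _
    congr 1
    exact Prod.ext (funext hκs) hκθ
  intro x
  set y := Multiplicative.toAdd x with hy
  have hx : x = Multiplicative.ofAdd y := rfl
  obtain ⟨g, hg⟩ := h0 (Multiplicative.ofAdd (y.1, 0))
  have hg' := congrArg Multiplicative.toAdd hg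
  have hg1 : ∀ r : R, ng g.1 (E.s r) = y.1 r := fun r => congrFun (congrArg Prod.fst hg') r
  have hg2 := hn g.1 (congrArg Prod.snd hg')
  set γ : H1 E3 E := ⟨g.1, g.2, hg2⟩ with hγ
  have hz : ∀ a b : ZMod 2, a = b ∨ a + 1 = b := by decide
  rcases hz (ng g.1 E.θ) y.2 with h | h
  · refine ⟨γ, ?_⟩
    rw [hx]
    show Multiplicative.ofAdd _ = _
    congr 1
    exact Prod.ext (funext hg1) h
  · refine ⟨γ * κ, ?_⟩
    rw [map_mul, hΦκ, hx]
    show Multiplicative.ofAdd _ * Multiplicative.ofAdd _ = _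
    rw [← ofAdd_add]
    congr 1
    refine Prod.ext ?_ h
    funext r
    show ng g.1 (E.s r) + 0 = y.1 r
    rw [add_zero, hg1]

end

end Pool.Agent.U687.J8
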