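import Pool.Agent.U687.J8.Ind
import Pool.Agent.Results.MP_6e2fc3_nt.CMFormsEvenWeights

/-!
# The proof of `MP_6e2fc3_nt.FieldsBySize`
-/

set_option autoImplicit false

open scoped Classical

namespace Pool.Agent.U687.J8.Top

open Filter Topology
open Pool.Agent.Results.MP_787500_nt.AllWeightsMultiquadraticX49 (RankZeroShaTwo Ind)
open Pool.Agent.Results.MP_6e2fc3_nt.CMFormsAllWeights (AllForms)
open Pool.Agent.Results.MP_6e2fc3_nt.CMFormsEvenWeights (EvenForms)

/-- squarefree, all prime factors `1 mod 8` and split in `ℚ(√-7)` or `5 mod 8` and inert in `ℚ(√-7)` -/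
def Class (m : ℕ) : Prop := Squarefree m ∧ ∀ p : ℕ, p.Prime → p ∣ m →
  (p % 8 = 1 ∧ (p % 7 = 1 ∨ p % 7 = 2 ∨ p % 7 = 4)) ∨
  (p % 8 = 5 ∧ (p % 7 = 3 ∨ p % 7 = 5 ∨ p % 7 = 6))

/-- `E_d(ℚ)` is finite and `Ш(E_d/ℚ)` has no element of order two, for all the divisors `d` of `m` -/
def AllTwists (m : ℕ) : Prop := ∀ d : ℕ, d ∣ m → RankZeroShaTwo d

/-- the statement on the Selmer groups for all the `M` and `F = ℚ(√d_1, …, √d_n)` that belong to `m` -/
def AllFields (m : ℕ) : Prop := ∀ M : ℕ, M ∣ m → M % 8 = 1 →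
  ∀ (n : ℕ) (d : Fin n → ℕ), (∀ i, d i ∣ m ∧ d i % 8 = 1) → AllForms M d ∧ EvenForms M d

/-- the `m ≤ X` in the class with exactly `K` prime factors -/
noncomputable def numbers (K X : ℕ) : Finset ℕ :=
  (Finset.Icc 1 X).filter fun m => Class m ∧ m.primeFactors.card = K

/-- the share of those with the property `Q` -/
noncomputable def proportion (K : ℕ) (Q : ℕ → Prop) (X : ℕ) : ℝ :=
  (((numbers K X).filter Q).card : ℝ) / ((numbers K X).card : ℝ)

/-- the number of the split prime factors of `m` -/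
noncomputable def splitNumber (m : ℕ) : ℕ := (m.primeFactors.filter fun p => p % 8 = 1).card

/-- the number of the involutions (the identity included) in the symmetric group of degree `s` -/
noncomputable def involutions (s : ℕ) : ℕ := Nat.card {σ : Equiv.Perm (Fin s) // σ * σ = 1}

/-- the share of the `m` with `s` split prime factors and `AllTwists m` -/
noncomputable def share (K s : ℕ) : ℝ :=
  ((K.choose s * involutions s : ℕ) : ℝ) / 2 ^ (K + s + (K.choose 2 - (K - s).choose 2))

/-- the share of the `m` with `AllTwists m` -/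
noncomputable def total (K : ℕ) : ℝ := ∑ s ∈ Finset.range (K + 1), share K s


open Pool.Agent.U687.J8
open Pool.Agent.U687.NO (Iv Ps)
open Pool.Agent.R426.QB (Ac)
open Pool.Agent.U120.MF (Spl)

theorem class_iff (m : ℕ) : Class m ↔ Ac m := by
  constructor
  · rintro ⟨h1, h2⟩
    exact ⟨h1, fun p hp => ⟨Nat.prime_of_mem_primeFactors hp,
      h2 p (Nat.prime_of_mem_primeFactors hp) (Nat.dvd_of_mem_primeFactors hp)⟩⟩
  · rintro ⟨h1, h2⟩
    exact ⟨h1, fun p hp hd => (h2 p (Nat.mem_primeFactors.2 ⟨hp, hd, h1.ne_zero⟩)).2⟩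

theorem numbers_eq (K X : ℕ) : numbers K X = N8 K X := by
  ext m
  have h0 : m ∈ numbers K X ↔ m ∈ Finset.Icc 1 X ∧ Class m ∧ m.primeFactors.card = K :=
    Finset.mem_filter
  have h1 : m ∈ N8 K X ↔ m ∈ Finset.Icc 1 X ∧ Ac m ∧ m.primeFactors.card = K :=
    Finset.mem_filter
  rw [h0, h1, class_iff]

theorem involutions_eq (s : ℕ) : involutions s = Iv s := by
  unfold involutions Iv
  rw [Nat.card_eq_fintype_card, Fintype.card_subtype]

theorem share_eq (K s : ℕ) : share K s = Ps K s := by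
  unfold share Ps
  rw [involutions_eq]

theorem split_eq {m : ℕ} (h : Ac m) : splitNumber m = (m.primeFactors.filter Spl).card := by
  unfold splitNumber
  congr 1
  refine Finset.filter_congr fun p hp => ?_
  have h1 := h.2 p hp
  rcases (pc_iff h1.1).1 h1 with h2 | h2
  · exact ⟨fun _ => h2.2, fun _ => h2.1⟩
  · constructor
    · intro h3
      omega
    · intro h3
      exact absurd h3 h2.2

theorem prop_eq (K : ℕ) (Q Q' : ℕ → Prop) (h : ∀ m, Ac m → (Q m ↔ Q' m)) (X : ℕ) :
    proportion K Q X = P8 K Q' X := by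
  unfold proportion P8
  rw [numbers_eq, card_filter_sum, card_filter_sum]
  congr 1
  exact Finset.sum_congr rfl fun m hm => ite_iff (h m (Finset.mem_filter.1 hm).2.1)

theorem total_ge (K : ℕ) : (1 / 2 : ℝ) ^ K ≤ total K := by
  unfold total
  have h1 : share K 0 = (1 / 2 : ℝ) ^ K := by
    unfold share
    rw [involutions_eq, iv_small.1, Nat.choose_zero_right, Nat.sub_zero, Nat.sub_self]
    simp
  rw [← h1]
  refine Finset.single_le_sum (f := fun s => share K s) (fun s _ => ?_) (Finset.mem_range.2 (by omega))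
  unfold share
  positivity

theorem totals : total 1 = 3 / 4 ∧ total 2 = 7 / 16 ∧ total 3 = 13 / 64 := by
  obtain ⟨h0, h1, h2, h3⟩ := iv_small
  refine ⟨?_, ?_, ?_⟩
  · unfold total share
    rw [Finset.sum_range_succ, Finset.sum_range_one, involutions_eq, involutions_eq, h0, h1]
    norm_num [Nat.choose]
  · unfold total share
    rw [Finset.sum_range_succ, Finset.sum_range_succ, Finset.sum_range_one, involutions_eq,
      involutions_eq, involutions_eq, h0, h1, h2]
    norm_num [Nat.choose]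
  · unfold total share
    rw [Finset.sum_range_succ, Finset.sum_range_succ, Finset.sum_range_succ, Finset.sum_range_one,
      involutions_eq, involutions_eq, involutions_eq, involutions_eq, h0, h1, h2, h3]
    norm_num [Nat.choose]


/-- **Theorem.** -/
theorem main :
    (∀ m : ℕ, Class m →
      (AllTwists m → AllFields m) ∧
      (¬ AllTwists m → ∃ d : ℕ, d ∣ m ∧ d.primeFactors.card ≤ 3 ∧ ¬ RankZeroShaTwo d) ∧
      ∃ d : Fin (m.primeFactors.card - 1) → ℕ, (∀ i, d i ∣ m ∧ d i % 8 = 1) ∧ Ind d) ∧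
    (∀ K : ℕ, 1 ≤ K →
      (∀ᶠ X : ℕ in atTop, (numbers K X).Nonempty) ∧
      (∀ s : ℕ, s ≤ K → Tendsto (fun X : ℕ =>
        proportion K (fun m => splitNumber m = s ∧ AllTwists m) X) atTop (𝓝 (share K s))) ∧
      Tendsto (fun X : ℕ => proportion K AllTwists X) atTop (𝓝 (total K)) ∧
      (1 / 2 : ℝ) ^ K ≤ total K) ∧
    total 1 = 3 / 4 ∧ total 2 = 7 / 16 ∧ total 3 = 13 / 64 := by
  refine ⟨fun m hm => ⟨fun hA M hM hM8 n d hd => ?_, fun hA => ?_, ?_⟩, ?_, totals⟩
  · have h := Pool.Agent.U687.J8.good_of ((class_iff m).1 hm) hA hM hM8 d hd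
    exact ⟨Pool.Agent.Results.MP_6e2fc3_nt.CMFormsAllWeights.result.1 n _ _ h,
      Pool.Agent.Results.MP_6e2fc3_nt.CMFormsEvenWeights.result.1 n _ _ h⟩
  · exact Pool.Agent.U687.J8.three8 ((class_iff m).1 hm) hA
  · exact Pool.Agent.U687.J8.exists_ind8 ((class_iff m).1 hm)
  · intro K hK
    obtain ⟨n, rfl⟩ : ∃ n, K = n + 1 := ⟨K - 1, by omega⟩
    refine ⟨?_, fun s _ => ?_, ?_, total_ge _⟩
    · filter_upwards [(Pool.Agent.U687.J8.law8 n 0).1] with X hX
      rw [numbers_eq]
      exact hX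
    · rw [share_eq]
      refine (Pool.Agent.U687.J8.law8 n s).2.congr fun X => ?_
      refine (prop_eq (n + 1) _ _ (fun m hm => ?_) X).symm
      rw [split_eq hm]
      exact Iff.rfl
    · have h := Pool.Agent.U687.J8.total8 n
      have e : ∑ s ∈ Finset.range (n + 1 + 1), Pool.Agent.U687.NO.Ps (n + 1) s = total (n + 1) := by
        unfold total
        exact Finset.sum_congr rfl fun s _ => (share_eq (n + 1) s).symm
      rw [e] at h
      exact h.congr fun X => (prop_eq (n + 1) _ _ (fun m _ => Iff.rfl) X).symm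

end Pool.Agent.U687.J8.Top
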